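import Pool.Agent.H458.BM.Npt
import Pool.Graph.R_seed8.Y317.SE.Res

/-!
# Compactness of the integers of the completion
-/

set_option autoImplicit false
set_option linter.all false

open Polynomial IsDedekindDomain NumberField WithZero Topology
open scoped Classical nonZeroDivisors Valued

namespace Pool.Agent.H458.BM

section cpt

variable {M : Type} [Field M] [NumberField M] (w : HeightOneSpectrum (𝓞 M))

theorem dvr : IsDiscreteValuationRing (Valued.integer (w.adicCompletion M)) :=
  inferInstanceAs (IsDiscreteValuationRing (w.adicCompletionIntegers M))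

theorem fin_res : Finite (IsLocalRing.ResidueField (Valued.integer (w.adicCompletion M))) := by
  obtain ⟨φ, hφ⟩ : ∃ φ : 𝓞 M → IsLocalRing.ResidueField (Valued.integer (w.adicCompletion M)),
      ∀ r, φ r = IsLocalRing.residue _ ⟨algebraMap M (w.adicCompletion M) (r : M), by
        show Valued.v _ ≤ (1 : ℤᵐ⁰)
        exact (w.valuedAdicCompletion_eq_valuation' (r : M)).le.trans (w.valuation_le_one r)⟩ :=
    ⟨_, fun r => rfl⟩
  haveI : Finite (𝓞 M ⧸ w.asIdeal) := Ideal.finiteQuotientOfFreeOfNeBot _ w.ne_bot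
  refine Finite.of_surjective (fun q : 𝓞 M ⧸ w.asIdeal => φ (Quotient.out q)) ?_
  intro y
  obtain ⟨⟨x, hx⟩, rfl⟩ := IsLocalRing.residue_surjective y
  obtain ⟨p, hp⟩ := Pool.Agent.Y317.SE.res_approx (F := M) w x hx
  refine ⟨Ideal.Quotient.mk _ p, ?_⟩
  simp only
  rw [hφ, ← sub_eq_zero, ← _root_.map_sub, IsLocalRing.residue_eq_zero_iff, IsLocalRing.mem_maximalIdeal,
    mem_nonunits_iff, Valuation.Integer.not_isUnit_iff_valuation_lt_one]
  obtain ⟨q, hq⟩ : ∃ q : 𝓞 M, q = Quotient.out (Ideal.Quotient.mk w.asIdeal p) := ⟨_, rfl⟩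
  have h1 : q - p ∈ w.asIdeal := by
    rw [← Ideal.Quotient.eq, hq]
    exact Quotient.out_eq _
  show Valued.v (algebraMap M (w.adicCompletion M) ((Quotient.out (Ideal.Quotient.mk w.asIdeal p) : 𝓞 M) : M) - x) <
    (1 : ℤᵐ⁰)
  have e1 : (Quotient.out (Ideal.Quotient.mk w.asIdeal p) : 𝓞 M) = q := hq.symm
  rw [e1]
  have e2 : algebraMap M (w.adicCompletion M) (q : M) - x =
      algebraMap M (w.adicCompletion M) ((q - p : 𝓞 M) : M) -
        (x - algebraMap M (w.adicCompletion M) (p : M)) := by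
    have : ((q - p : 𝓞 M) : M) = (q : M) - (p : M) := rfl
    rw [this, _root_.map_sub]
    ring
  rw [e2]
  refine lt_of_le_of_lt (Valuation.map_sub _ _ _) (max_lt ?_ ?_)
  · refine lt_of_eq_of_lt (w.valuedAdicCompletion_eq_valuation' _) ?_
    exact (w.valuation_lt_one_iff_mem _).2 h1
  · refine lt_of_le_of_lt hp ?_
    rw [← exp_zero, exp_lt_exp]
    norm_num

theorem cpt : IsCompact {x : w.adicCompletion M | Valued.v x ≤ (1 : ℤᵐ⁰)} := by
  have h1 : CompactSpace (Valued.integer (w.adicCompletion M)) := by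
    rw [Valued.integer.compactSpace_iff_completeSpace_and_isDiscreteValuationRing_and_finite_residueField]
    refine ⟨?_, dvr w, fin_res w⟩
    exact (Valued.isClosed_integer (w.adicCompletion M)).completeSpace_coe
  exact isCompact_iff_compactSpace.2 h1

theorem closed_le (c : w.adicCompletion M) (hc : c ≠ 0) :
    IsClosed {x : w.adicCompletion M | Valued.v x ≤ (Valued.v c : ℤᵐ⁰)} := by
  have h1 := (cpt w).isClosed
  have h2 : {x : w.adicCompletion M | Valued.v x ≤ (Valued.v c : ℤᵐ⁰)} =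
      (fun x => c⁻¹ * x) ⁻¹' {x : w.adicCompletion M | Valued.v x ≤ (1 : ℤᵐ⁰)} := by
    ext x
    simp only [Set.mem_setOf_eq, Set.mem_preimage, _root_.map_mul, map_inv₀]
    have hc' : (Valued.v c : ℤᵐ⁰) ≠ 0 := by rwa [Ne, map_eq_zero]
    rw [inv_mul_le_iff₀ (zero_lt_iff.2 hc'), mul_one]
  rw [h2]
  exact h1.preimage (by fun_prop)

end cpt

section scale

theorem aeval_scale {K : Type} [Field K] {E : Type} [Field E] [Algebra K E] {σ : Type} {wt : σ → ℕ}
    {G : MvPolynomial σ K} {d : ℕ} (hG : G.IsWeightedHomogeneous wt d) (x : σ → E) (l : E) :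
    MvPolynomial.aeval (fun i => l ^ wt i * x i) G = l ^ d * MvPolynomial.aeval x G := by
  rw [MvPolynomial.aeval_def, MvPolynomial.aeval_def, MvPolynomial.eval₂_eq, MvPolynomial.eval₂_eq,
    Finset.mul_sum]
  refine Finset.sum_congr rfl fun e he => ?_
  have h1 : Finsupp.weight wt e = d := hG (MvPolynomial.mem_support_iff.1 he)
  have h2 : ∏ i ∈ e.support, (l ^ wt i * x i) ^ e i = l ^ d * ∏ i ∈ e.support, x i ^ e i := by
    simp only [mul_pow, Finset.prod_mul_distrib, ← pow_mul]
    rw [Finset.prod_pow_eq_pow_sum, ← h1, Finsupp.weight_apply, Finsupp.sum]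
    congr 2
    exact Finset.sum_congr rfl fun i _ => by rw [smul_eq_mul, mul_comm]
  rw [h2]
  ring

end scale

end Pool.Agent.H458.BM
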