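import Pool.Agent.H458.BM.Sur
import Pool.Agent.H458.BM.Cpt

/-!
# The adelic points which lift to a `2 ^ n`-covering: the components at the primes over two
-/

set_option autoImplicit false
set_option linter.all false

open Polynomial IsDedekindDomain NumberField WithZero
open scoped Classical nonZeroDivisors

namespace Pool.Agent.H458.BM

open Pool.Agent.H458.PD
open Pool.Agent.N874.Jac (J mapJ Gal Cochain Cocycle Coboundary CoordRing ShaTwoTrivialReal)

section two

variable {F : Type} [Field F] [NumberField F] {M : Type} [Field M] [NumberField M] [Algebra F M]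

theorem power_two {K : Type} [Field K] {P : K[X]} {E : Type} [Field E] [Algebra K E] {n : ℕ}
    {z : Point P E} (h : ClassIsPower (2 ^ (n + 1)) z) : ClassIsPower 2 z := by
  obtain ⟨q, S, h1, h2⟩ := h
  exact ⟨q, S ^ 2 ^ n, h1, by rw [← pow_mul, ← pow_succ]; exact h2⟩

variable {f : (𝓞 F)[X]} {g : ℕ} {P : M[X]}

/-- **The bound.** If the class of the affine point `(x, y)` over the completion at a prime over two is a
`2 ^ n`-th power, `n ≥ 1`, then `|x| ≥ |2| ^ (- 2 n)`. -/
theorem point_bound (hm : f.Monic) (hg : 1 ≤ g) (hd : f.natDegree = 2 * g + 1)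
    (hP : P = (f.map (algebraMap (𝓞 F) F)).map (algebraMap F M))
    {v : HeightOneSpectrum (𝓞 F)} (hv : (2 : 𝓞 F) ∈ v.asIdeal) (hR : RegAt v f)
    {w : HeightOneSpectrum (𝓞 M)}
    (h : ∀ x : F, w.valuation M (algebraMap F M x) = v.valuation F x)
    (p : {p : w.adicCompletion M × w.adicCompletion M //
      p.2 ^ 2 = (P.map (algebraMap M (w.adicCompletion M))).eval p.1}) {n : ℕ} (hn : 1 ≤ n)
    (hz : ClassIsPower (2 ^ n) (some p : Point P (w.adicCompletion M))) :
    1 ≤ (Valued.v (2 : w.adicCompletion M) : ℤᵐ⁰) ^ (2 * n) * Valued.v p.1.1 := by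
  obtain ⟨s, rfl⟩ : ∃ s, n = s + 1 := ⟨n - 1, by omega⟩
  have h1 := point_one hm hg hd hP hv hR h p (power_two hz)
  obtain ⟨q, S, ⟨h2, I, h30, h4⟩, h5⟩ := hz
  obtain ⟨h3, h4⟩ := nz_of h30 h4
  obtain ⟨J, hJ, hJE⟩ := cls_div (P := P.map (algebraMap M (w.adicCompletion M))) h2 h3
    (S := S) (n := 2 ^ (s + 1)) (h5.trans h4)
  have h6 : (dId (P.map (algebraMap M (w.adicCompletion M))) (X - C p.1.1) (C p.1.2)).map
      (isoQA (P.map (algebraMap M (w.adicCompletion M))) : Pool.Agent.Y160.SE.CR 2 _ →+* QA _ _) =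
      idl (P.map (algebraMap M (w.adicCompletion M))) (X - C p.1.1) (C p.1.2) := dId_map _ _ _
  have h7 : Eqv (J ^ 2 ^ (s + 1))
      (idl (P.map (algebraMap M (w.adicCompletion M))) (X - C p.1.1) (C p.1.2)) := by
    rw [← h6]
    exact hJE
  exact pt_bound Valued.v ((algebraMap M (w.adicCompletion M)).comp (algebraMap F M)) (comp_val h) hv hR
    hm hg hd (P := P.map (algebraMap M (w.adicCompletion M))) (by rw [hP, Polynomial.map_map]) p.2 h1 s
    hJ h7

theorem val_two {v : HeightOneSpectrum (𝓞 F)} (hv : (2 : 𝓞 F) ∈ v.asIdeal)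
    {w : HeightOneSpectrum (𝓞 M)}
    (h : ∀ x : F, w.valuation M (algebraMap F M x) = v.valuation F x) :
    (Valued.v (2 : w.adicCompletion M) : ℤᵐ⁰) < 1 := by
  have h1 := comp_val h 2
  rw [RingHom.comp_apply] at h1
  have h2 : algebraMap M (w.adicCompletion M) (algebraMap F M ((2 : 𝓞 F) : F)) = 2 := by
    have : ((2 : 𝓞 F) : F) = 2 := map_ofNat (algebraMap (𝓞 F) F) 2
    rw [this, map_ofNat, map_ofNat]
  rw [h2] at h1
  rw [h1]
  exact (v.intValuation_lt_one_iff_mem 2).2 hv

theorem P_int {f : (𝓞 F)[X]} {P : M[X]}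
    (hP : P = (f.map (algebraMap (𝓞 F) F)).map (algebraMap F M)) {v : HeightOneSpectrum (𝓞 F)}
    {w : HeightOneSpectrum (𝓞 M)}
    (h : ∀ x : F, w.valuation M (algebraMap F M x) = v.valuation F x) (j : ℕ) :
    w.valuation M (P.coeff j) ≤ 1 := by
  rw [hP, coeff_map, coeff_map, h]
  exact v.valuation_le_one _

end two

end Pool.Agent.H458.BM
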