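import Pool.Graph.R_pool_sql_team_seeded_63374d34.N874.Jac.Def

/-!
# Points of the curve `y ^ 2 = P(x)`, their classes, and the points which lift to an `n`-covering

`P` is a polynomial of odd degree over a field `K`. The group `J(E)`, the Picard group of the affine
coordinate ring `E[x, y] / (y ^ 2 - P)`, and the Galois group `Gal K` of the separable closure of `K` are
defined in `N874/Jac/Def.lean` of the library.
-/

set_option autoImplicit false
set_option linter.all false

open Polynomial IsDedekindDomain
open scoped nonZeroDivisors

namespace Pool.Agent.H458.BM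

open Pool.Agent.N874.Jac (J mapJ Gal Cochain Cocycle CoordRing)

/-- The element `a` of `S` as an element of the ring `S[y] / (q)`. -/
noncomputable def constElem {S : Type} [CommRing S] (q : S[X]) (a : S) : AdjoinRoot q := AdjoinRoot.of q a

/-- The value `f(a)` of a homomorphism of monoids. -/
def valueAt {A B : Type} [MulOneClass A] [MulOneClass B] (f : A →* B) (a : A) : B := f a

/-- The class of a nonzero ideal (a non-zero-divisor of the monoid of the ideals) of a Dedekind domain in the ideal
class group. -/
noncomputable def classOf {S : Type} [CommRing S] [IsDedekindDomain S] (I : (Ideal S)⁰) :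
    ClassGroup S := valueAt ClassGroup.mk0 I

/-- The isomorphism from the ideal class group to the Picard group. -/
noncomputable def toPic {S : Type} [CommRing S] [IsDomain S] (d : ClassGroup S) : CommRing.Pic S :=
  ClassGroup.equivPic S d

/-- `c` is the class of the ideal `I` of the Dedekind domain `S` in the Picard group. -/
def IsIdealClass {S : Type} [CommRing S] (I : Ideal S) (c : CommRing.Pic S) : Prop :=
  ∃ (_ : IsDedekindDomain S) (I' : (Ideal S)⁰), (I' : Ideal S) = I ∧ c = toPic (classOf I')

section local_

variable {K : Type} [Field K] (P : K[X]) (E : Type) [Field E] [Algebra K E]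

/-- The affine points `(x, y)` over the extension `E` of `K` of the curve `y ^ 2 = P(x)`. -/
def Affine : Type := {p : E × E // p.2 ^ 2 = (P.map (algebraMap K E)).eval p.1}

/-- The points over the extension `E` of `K` of the smooth projective curve `C` with the equation
`y ^ 2 = P(x)`, `deg P` odd: the point at infinity `none` and the affine points. -/
def Point : Type := Option (Affine P E)

/-- The polynomial `A` in `x` as an element of the coordinate ring `E[x, y] / (y ^ 2 - P)`. -/
noncomputable def polyElem (A : E[X]) : CoordRing P E :=
  constElem (X ^ 2 - C (P.map (algebraMap K E))) A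

/-- The element `y` of the coordinate ring. -/
noncomputable def yElem : CoordRing P E := AdjoinRoot.root (X ^ 2 - C (P.map (algebraMap K E)))

/-- The ideal `(x - a, b - y)` of the coordinate ring. -/
noncomputable def pointIdeal (a b : E) : Ideal (CoordRing P E) :=
  Ideal.span {polyElem P E (X - C a), polyElem P E (C b) - yElem P E}

variable {P E}

/-- `c ∈ J(E)` is the class of the ideal `I` of the coordinate ring (a Dedekind domain). -/
def IsClassOf (I : Ideal (CoordRing P E)) (c : J P E) : Prop := IsIdealClass I c

/-- `c ∈ J(E)` is the class of the point `z`, that is the class of the divisor `∞ - z`: it is the class of the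
ideal `(x - a, b - y)` if `z = (a, b)` and trivial if `z` is the point at infinity. -/
def HasClass (z : Point P E) (c : J P E) : Prop :=
  Option.elim z (c = 1) fun p => IsClassOf (pointIdeal P E p.1.1 p.1.2) c

/-- The class of the point `z ∈ C(E)` is an `n`-th power in `J(E)`. -/
def ClassIsPower (n : ℕ) (z : Point P E) : Prop := ∃ q S : J P E, HasClass z q ∧ S ^ n = q

/-- `R ^ n` is the image of `q ∈ J(E)` in `J(Ω')`. -/
def IsRootOf {Ω' : Type} [Field Ω'] [Algebra E Ω'] [Algebra K Ω'] [IsScalarTower K E Ω'] (n : ℕ)
    (q : J P E) (R : J P Ω') : Prop := R ^ n = mapJ P (IsScalarTower.toAlgHom K E Ω') q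

/-- All values of `c` are killed by `n`. -/
def KilledIn {Ω : Type} [Field Ω] [Algebra K Ω] (n : ℕ) (c : (Ω ≃ₐ[K] Ω) → J P Ω) : Prop :=
  ∀ σ, c σ ^ n = 1

/-- `c` is a function on the group of automorphisms of `Ω` over `K` with values in `J(Ω)`, and
`q ∈ J(E)`. There are an embedding of `Ω` in the extension `Ω'` of `E` and `R ∈ J(Ω')` such that `R ^ n` is
the image of `q` and `c(τ|Ω) = τ R / R` for all automorphisms `τ` of `Ω'` over `E`. -/
def DividesIn {Ω : Type} [Field Ω] [Algebra K Ω] (Ω' : Type) [Field Ω'] [Algebra E Ω'] [Algebra K Ω']
    [IsScalarTower K E Ω'] (n : ℕ) (c : (Ω ≃ₐ[K] Ω) → J P Ω) (q : J P E) : Prop :=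
  ∃ (ι : Ω →ₐ[K] Ω') (R : J P Ω'), IsRootOf n q R ∧
    ∀ (τ : Ω' ≃ₐ[E] Ω') (σ : Ω ≃ₐ[K] Ω), (∀ x, τ (ι x) = ι (σ x)) →
      mapJ P ι (c σ) = mapJ P (τ.toAlgHom.restrictScalars K) R / R

variable (E)

/-- `c` is a cocycle with values in `J[n]`. It gives the `n`-covering of `C`, the pull-back of the twist of
`n : J → J` by `c`. The point `z ∈ C(E)` lifts to a point over `E` of this covering: there is a point
`R ∈ J(E ^ sep)` such that `R ^ n` is the class of `z` and `c(τ) = τ R / R` for all `τ`. -/
def LiftsTo (n : ℕ) (c : Cochain P) (z : Point P E) : Prop :=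
  ∃ q : J P E, HasClass z q ∧ DividesIn (SeparableClosure E) n c q

end local_

section global_

variable {K : Type} [Field K] (P : K[X])
  (R : Type) [CommRing R] [IsDedekindDomain R] [Algebra R K] [IsFractionRing R K]

/-- The points over the real numbers with the embedding `ρ` of `K`. -/
def RealPoint (ρ : K →+* ℝ) : Type := letI := ρ.toAlgebra; Point P ℝ

/-- `K` is a number field with the ring of integers `R`: an adelic point of `C`, that is a point of `C` over
the completion of `K` at every maximal ideal of `R` and over the real numbers for every embedding of `K` in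
the real numbers. (The complex places are left out because they give no condition.) -/
structure AdelicPoint where
  finite : ∀ w : HeightOneSpectrum R, Point P (w.adicCompletion K)
  real : ∀ ρ : K →+* ℝ, RealPoint P ρ

variable {P R}

/-- The real point `z` lifts to a real point of the covering given by `c`. -/
def LiftsToReal (n : ℕ) (c : Cochain P) {ρ : K →+* ℝ} (z : RealPoint P ρ) : Prop :=
  letI := ρ.toAlgebra; LiftsTo ℝ n c (z : Point P ℝ)

/-- The class of the real point `z` is an `n`-th power. -/
def RealClassIsPower (n : ℕ) {ρ : K →+* ℝ} (z : RealPoint P ρ) : Prop :=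
  letI := ρ.toAlgebra; ClassIsPower n (z : Point P ℝ)

/-- All values of `c` are killed by `n`. -/
def KilledBy (n : ℕ) (c : Cochain P) : Prop := KilledIn n c

/-- All components of the adelic point `z` lift to the covering given by `c`. -/
def LiftsToAt (n : ℕ) (c : Cochain P) (z : AdelicPoint P R) : Prop :=
  (∀ w : HeightOneSpectrum R, LiftsTo (w.adicCompletion K) n c (z.finite w)) ∧
    ∀ ρ : K →+* ℝ, LiftsToReal n c (z.real ρ)

/-- The adelic point `z` lifts to an adelic point of an `n`-covering of `C` over `K`. -/
def Survives (n : ℕ) (z : AdelicPoint P R) : Prop :=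
  ∃ c : Cochain P, Cocycle c ∧ KilledBy n c ∧ LiftsToAt n c z

/-- The classes of the components of `z` are `n`-th powers. -/
def ClassesArePowers (n : ℕ) (z : AdelicPoint P R) : Prop :=
  (∀ w : HeightOneSpectrum R, ClassIsPower n (z.finite w)) ∧
    ∀ ρ : K →+* ℝ, RealClassIsPower n (z.real ρ)

end global_

/-- The point `z` of the curve over a field `E` with a valuation is the point at infinity or an affine point
`(x, y)` with `|x| ≥ |2| ^ (- 2 n)`. -/
def NearBy {K : Type} [Field K] {P : K[X]} {E : Type} [Field E] [Algebra K E]
    (u : Valuation E (WithZero (Multiplicative ℤ))) (n : ℕ) (z : Point P E) : Prop :=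
  Option.elim z True fun p => 1 ≤ u 2 ^ (2 * n) * u p.1.1

end Pool.Agent.H458.BM
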