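import Pool.Graph.R_pool_sql_team_seeded_63374d34.N844.QF.Hf
import Pool.Graph.R_pool_sql_team_seeded_63374d34.N655.JB.Inj

/-!
# Descent of classes, cocycles killed by a power of two
-/

set_option autoImplicit false
set_option linter.all false

open Polynomial IsDedekindDomain
open scoped Classical

namespace Pool.Agent.H458.BM

open Pool.Agent.Y160.SE
open Pool.Agent.TH115.GD (incl rs ak exists_restrict)
open Pool.Agent.N106.JB (ad mu ad_mapJ ACoc ACob ATriv)

section inj

theorem inj_aux {E Om : Type} [Field E] [Field Om] [Algebra E Om] (f : E[X])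
    (h0 : Function.Injective (CommRing.Pic.mapRingHom (cm 2 f (incl E E Om))))
    (p : E[X]) (p' : Om[X]) (e1 : f.map (algebraMap E E) = p) (e2 : f.map (algebraMap E Om) = p')
    (h : p.map ((incl E E Om : E →ₐ[E] Om) : E →+* Om) = p') :
    Function.Injective (CommRing.Pic.mapRingHom
      (crMap 2 ((incl E E Om : E →ₐ[E] Om) : E →+* Om) p p' h)) := by
  subst e1 e2
  exact h0

variable {K : Type} [Field K] {f : K[X]}

/-- `J(E) → J(E ^ sep)` is injective. -/
theorem injE (hg : Good 2 (-1 : K) f) (E Om : Type) [Field E] [Field Om] [Algebra K E] [Algebra E Om]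
    [Algebra K Om] [IsScalarTower K E Om] [IsGalois E Om] :
    Function.Injective (jm 2 f (incl K E Om) : Jac 2 f E → Jac 2 f Om) := by
  have hg' : Good 2 (-1 : E) (f.map (algebraMap K E)) := by
    have := hg.up E
    rwa [map_neg, map_one] at this
  have h0 := Pool.Agent.N655.JB.inj E Om (f.map (algebraMap K E)) hg'
  have h1 : Function.Injective (CommRing.Pic.mapRingHom
      (cm 2 (f.map (algebraMap K E)) (incl E E Om))) := by
    intro x y hxy
    have h2 := @h0 (Additive.ofMul x) (Additive.ofMul y)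
      (congrArg (fun z => Additive.ofMul z) hxy)
    exact Additive.ofMul.injective h2
  have h2 := inj_aux (f.map (algebraMap K E)) h1 (f.map (algebraMap K E)) (f.map (algebraMap K Om))
    Polynomial.map_id (by rw [Polynomial.map_map, ← IsScalarTower.algebraMap_eq])
    (by
      rw [Polynomial.map_map]
      congr 1
      exact (IsScalarTower.algebraMap_eq K E Om).symm)
  have e : ((incl E E Om : E →ₐ[E] Om) : E →+* Om) = ((incl K E Om : E →ₐ[K] Om) : E →+* Om) := by
    ext x
    rfl
  have h3 : Function.Injective (CommRing.Pic.mapRingHom (cm 2 f (incl K E Om))) := by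
    have h4 : cm 2 f (incl K E Om) = crMap 2 ((incl E E Om : E →ₐ[E] Om) : E →+* Om)
        (f.map (algebraMap K E)) (f.map (algebraMap K Om)) (by
          rw [e]
          exact map_alg _) := by
      unfold cm
      congr 1
    rw [h4]
    exact h2
  intro x y hxy
  exact Additive.toMul.injective (h3 (congrArg (fun z => Additive.toMul z) hxy))

end inj

section fix

variable {K : Type} [Field K] {F : K[X]}

/-- If `J(K) = 0`, then an invariant class is zero. -/
theorem fix0 (h2 : (2 : K) ≠ 0) (hm : F.Monic) (hs : F.Separable) (ho : Odd F.natDegree)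
    (hJ : ∀ x : Jac 2 F K, x = 0) (P : Jac 2 F (SeparableClosure K))
    (hP : ∀ σ : SeparableClosure K ≃ₐ[K] SeparableClosure K, jm 2 F (ak σ) P = P) : P = 0 := by
  have H := hyps
  have hg := Pool.Agent.N106.JB.good2 h2 hm hs ho
  obtain ⟨Q, rfl⟩ := fixed_class (E := K) H hg P fun τ => by
    have e1 : (rs K τ : SeparableClosure K →ₐ[K] SeparableClosure K) = ak τ :=
      AlgHom.ext fun x => rfl
    rw [e1, hP]
  rw [hJ Q, map_zero]

/-- The coboundaries which are killed by `2 ^ n` are coboundaries of elements killed by `2 ^ n`. -/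
theorem cob_tors (h2 : (2 : K) ≠ 0) (hm : F.Monic) (hs : F.Separable) (ho : Odd F.natDegree)
    (hJ : ∀ x : Jac 2 F K, x = 0)
    {c : (SeparableClosure K ≃ₐ[K] SeparableClosure K) → Jac 2 F (SeparableClosure K)}
    (hc : ACob c) (n : ℕ) (hn : ∀ σ, 2 ^ n • c σ = 0) :
    ∃ R : Jac 2 F (SeparableClosure K), 2 ^ n • R = 0 ∧ ∀ σ, c σ = jm 2 F (ak σ) R - R := by
  obtain ⟨R, hR⟩ := hc
  refine ⟨R, ?_, hR⟩
  apply fix0 h2 hm hs ho hJ
  intro σ
  have h3 := hn σ
  rw [hR σ, smul_sub, ← map_nsmul, sub_eq_zero] at h3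
  exact h3

/-- The local points are divisible by `2 ^ n`. -/
theorem surv_add (h2 : (2 : K) ≠ 0) (hm : F.Monic) (hs : F.Separable) (ho : Odd F.natDegree)
    (hJ : ∀ x : Jac 2 F K, x = 0)
    {c : (SeparableClosure K ≃ₐ[K] SeparableClosure K) → Jac 2 F (SeparableClosure K)}
    (hc : ACob c) (n : ℕ) (hn : ∀ σ, 2 ^ n • c σ = 0)
    (E : Type) [Field E] [Algebra K E] (ι : SeparableClosure K →ₐ[K] SeparableClosure E)
    (Q : Jac 2 F (SeparableClosure E))
    (hQ : ∀ (τ : SeparableClosure E ≃ₐ[E] SeparableClosure E)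
      (σ : SeparableClosure K ≃ₐ[K] SeparableClosure K), (∀ x, τ (ι x) = ι (σ x)) →
        jm 2 F ι (c σ) = jm 2 F (rs K τ) Q - Q)
    (q : Jac 2 F E) (hq : 2 ^ n • Q = jm 2 F (incl K E (SeparableClosure E)) q) :
    ∃ S : Jac 2 F E, 2 ^ n • S = q := by
  have H := hyps
  have hg := Pool.Agent.N106.JB.good2 h2 hm hs ho
  obtain ⟨R, hR1, hR2⟩ := cob_tors h2 hm hs ho hJ hc n hn
  obtain ⟨S, hS⟩ := fixed_class (E := E) H hg (Q - jm 2 F ι R) fun τ => by
    obtain ⟨σ, hσ⟩ := exists_restrict (F := K) (L := E) ι τ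
    have h3 := hQ τ σ hσ
    have e2 : (rs K τ).comp ι = ι.comp (ak σ) := AlgHom.ext fun x => hσ x
    rw [map_sub, jm_jm, e2, ← jm_jm]
    rw [hR2 σ, map_sub] at h3
    have h4 : jm 2 F (rs K τ) Q = jm 2 F ι (jm 2 F (ak σ) R) - jm 2 F ι R + Q := by
      rw [h3]; abel
    rw [h4]; abel
  refine ⟨S, injE hg E (SeparableClosure E) ?_⟩
  rw [map_nsmul, hS, smul_sub, ← map_nsmul, hR1, map_zero, sub_zero, hq]

end fix

end Pool.Agent.H458.BM
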