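import Pool.Agent.H458.PD.Glo

/-!
# Integral divisors of small degree are not divisible by two; the local theorems over a field with a
# discrete valuation
-/

set_option autoImplicit false
set_option linter.all false

open Polynomial IsDedekindDomain NumberField WithZero
open scoped Classical

namespace Pool.Agent.H458.BM

open Pool.Agent.H458.PD
open Pool.Agent.Y160.SE (CR)

section

variable {O K k : Type} [CommRing O] [IsDomain O] [Field K] [Algebra O K] [Field k]
  {red : O →+* k} {π : O} (L : Lc O K k red π)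

include L

/-- If `A` is monic and `B ^ 2 - A D = f`, then `A` and `D` are coprime. -/
theorem cop1 (h2 : (2 : k) = 0) {f : O[X]} (hfm : f.Monic) (hfo : Odd f.natDegree)
    (hR : Reg red π f) {A B D : O[X]} (h : B ^ 2 - A * D = f) (hA : A.Monic) : IsCoprime A D := by
  have hc := L.cop h2 hfm hfo hR h
  obtain ⟨α, β, hαβ⟩ := hc
  obtain ⟨α', rfl⟩ := L.lift α
  obtain ⟨β', rfl⟩ := L.lift β
  have h4 := L.nak (I := Ideal.span {A, D}) (A := A) (by rw [hA.leadingCoeff]; exact isUnit_one)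
    (Ideal.subset_span (by simp)) (P := α' * A + β' * D) (by
      rw [Ideal.mem_span_pair]
      exact ⟨α', β', rfl⟩) (by
      rw [Polynomial.map_add, Polynomial.map_mul, Polynomial.map_mul]
      exact hαβ)
  rw [Ideal.eq_top_iff_one, Ideal.mem_span_pair] at h4
  exact h4

/-- **Level one.** The class of an integral divisor of degree between `1` and `2 g` is not divisible by
two. -/
theorem lvl1 [IsPrincipalIdealRing O] (h2 : (2 : k) = 0) {f : O[X]} (hfm : f.Monic) {g : ℕ}
    (hfd : f.natDegree = 2 * g + 1) (hR : Reg red π f) {A B D : O[X]} (h : B ^ 2 - A * D = f)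
    (hA : A.Monic) (hd1 : 1 ≤ A.natDegree) (hd2 : A.natDegree ≤ 2 * g)
    {J : Ideal (QA K[X] (mp K f))} (hJ : J ≠ ⊥)
    (hE : Eqv (J ^ 2) (idl (mp K f) (mp K A) (mp K B))) : False := by
  have hfo : Odd f.natDegree := by rw [hfd]; exact odd_two_mul_add_one g
  have hfK : (mp K f).natDegree = 2 * g + 1 := by
    unfold mp
    rw [natDegree_map_eq_of_injective L.inj, hfd]
  haveI : IsDomain (QA K[X] (mp K f)) := isDomain (by rw [hfK]; exact odd_two_mul_add_one g)
  obtain ⟨A', B', D', h', hA', hc', hE'⟩ := L.good h2 hfm hfd hR hJ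
  obtain ⟨p, q, h3, h4, ⟨z, hz⟩, h6⟩ := L.step h2 hfm hfd h hA (cop1 L h2 hfm hfo hR h hA) h' hA' hc' 0
    (by
      have h5 : (2 : ℕ) ^ (0 + 1) = 2 := by norm_num
      rw [h5]
      exact (hE'.symm.pow _).trans hE)
  have hq : q = 0 := by
    by_contra hq
    have := h4 hq
    omega
  subst hq
  rw [zero_mul, sub_zero] at hz
  have hp : p %ₘ A = p := by
    rw [modByMonic_eq_self_iff hA]
    apply degree_lt_degree
    omega
  rw [hp] at hz
  apply h6
  have h2X : (2 : k[X]) = 0 := by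
    rw [← C_ofNat, h2, C_0]
  refine ⟨?_, by simp⟩
  rw [hz]
  simp [h2X]

end

section glo

variable {F : Type} [Field F] [NumberField F]

variable {E : Type} [Field E] {v : HeightOneSpectrum (𝓞 F)} (u : Valuation E ℤᵐ⁰)
  (ι : F →+* E) (hu : ∀ a : 𝓞 F, u (ι (a : F)) = v.intValuation a)

/-- The homomorphism from the integers of `F` to the valuation ring. -/
noncomputable def jo : 𝓞 F →+* u.valuationSubring where
  toFun a := ⟨ι (a : F), by
    rw [Valuation.mem_valuationSubring_iff, hu]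
    exact v.intValuation_le_one a⟩
  map_zero' := by apply Subtype.ext; simp
  map_one' := by apply Subtype.ext; simp
  map_add' a b := by apply Subtype.ext; simp
  map_mul' a b := by apply Subtype.ext; simp

theorem jo_coe (a : 𝓞 F) : ((jo u ι hu a : u.valuationSubring) : E) = ι (a : F) := rfl

theorem jo_un {π : 𝓞 F} (h1 : π ∈ v.asIdeal) (h2 : π ∉ v.asIdeal ^ 2) :
    Un u (jo u ι hu π) := by
  constructor
  rw [jo_coe, hu]
  have h3 : v.intValuation π ≤ exp (-((1 : ℕ) : ℤ)) :=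
    (v.intValuation_le_pow_iff_mem π 1).2 (by rw [pow_one]; exact h1)
  have h4 : ¬ v.intValuation π ≤ exp (-((2 : ℕ) : ℤ)) := fun h => h2
    ((v.intValuation_le_pow_iff_mem π 2).1 h)
  have h0 : v.intValuation π ≠ 0 := by
    intro h
    apply h4
    rw [h]
    exact zero_le'
  obtain ⟨m, hm⟩ : ∃ m : ℤ, v.intValuation π = exp m := ⟨_, (exp_log h0).symm⟩
  rw [hm, exp_le_exp] at h3 h4
  rw [hm]
  congr 1
  push_cast at h3 h4
  omega

theorem jo_dvd {π : 𝓞 F} (h1 : π ∈ v.asIdeal) (h2 : π ∉ v.asIdeal ^ 2) {a : 𝓞 F} {n : ℕ}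
    (ha : a ∈ v.asIdeal ^ n) : jo u ι hu π ^ n ∣ jo u ι hu a := by
  rw [(jo_un u ι hu h1 h2).dvd, jo_coe, hu]
  exact (v.intValuation_le_pow_iff_mem a n).2 ha

theorem jo_reg {f : (𝓞 F)[X]} (h : RegAt v f) : ∃ π : 𝓞 F, π ∈ v.asIdeal ∧ π ∉ v.asIdeal ^ 2 ∧
    Reg (IsLocalRing.residue u.valuationSubring) (jo u ι hu π) (f.map (jo u ι hu)) := by
  obtain ⟨π, E', G, r, a, b, h1, h2, h3, h4⟩ := h
  refine ⟨π, h1, h2, ?_⟩
  have U := jo_un u ι hu h1 h2
  obtain ⟨s, hs⟩ : ∃ s, (f - (E' ^ 2 + X * G ^ 2 + C π * r)).map (jo u ι hu) =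
      C (jo u ι hu π ^ 2) * s := by
    apply (C_dvd_iff_dvd_coeff _ _).2
    intro j
    rw [coeff_map]
    exact jo_dvd u ι hu h1 h2 (h3 j)
  have hπ0 : IsLocalRing.residue u.valuationSubring (jo u ι hu π) = 0 := U.res.2 (dvd_refl _)
  refine ⟨E'.map (jo u ι hu), G.map (jo u ι hu), r.map (jo u ι hu) + C (jo u ι hu π) * s, ?_, ?_⟩
  · have h5 : f.map (jo u ι hu) = (f - (E' ^ 2 + X * G ^ 2 + C π * r)).map (jo u ι hu) +
        (E' ^ 2 + X * G ^ 2 + C π * r).map (jo u ι hu) := by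
      rw [← Polynomial.map_add, sub_add_cancel]
    rw [h5, hs]
    simp only [Polynomial.map_add, Polynomial.map_mul, Polynomial.map_pow, map_X, map_C,
      _root_.map_pow]
    ring
  · refine ⟨(a.map (jo u ι hu)).map (IsLocalRing.residue u.valuationSubring),
      (b.map (jo u ι hu)).map (IsLocalRing.residue u.valuationSubring), ?_⟩
    have h5 : ((a * r + b * G - 1).map (jo u ι hu)).map (IsLocalRing.residue u.valuationSubring) =
        0 := by
      ext j
      rw [coeff_map, coeff_map, coeff_zero, U.res]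
      have := jo_dvd u ι hu h1 h2 (n := 1) (a := (a * r + b * G - 1).coeff j)
        (by rw [pow_one]; exact h4 j)
      rwa [pow_one] at this
    simp only [Polynomial.map_add, Polynomial.map_mul, Polynomial.map_sub, Polynomial.map_one,
      map_C] at h5 ⊢
    rw [hπ0, C_0, zero_mul, add_zero]
    linear_combination h5

include hu in
theorem jo_two (hσ : (2 : 𝓞 F) ∈ v.asIdeal) {π : 𝓞 F} (h1 : π ∈ v.asIdeal)
    (h2 : π ∉ v.asIdeal ^ 2) : (2 : IsLocalRing.ResidueField u.valuationSubring) = 0 := by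
  have U := jo_un u ι hu h1 h2
  have h4 : IsLocalRing.residue u.valuationSubring (jo u ι hu 2) = 0 := by
    rw [U.res]
    have := jo_dvd u ι hu h1 h2 (n := 1) (a := 2) (by rw [pow_one]; exact hσ)
    rwa [pow_one] at this
  rw [map_ofNat, map_ofNat] at h4
  exact h4

include u hu in
/-- Infinitely 2-divisible classes are trivial. -/
theorem inf_div (hσ : (2 : 𝓞 F) ∈ v.asIdeal) {f : (𝓞 F)[X]} (hR : RegAt v f) (hm : f.Monic) {g : ℕ}
    (hd : f.natDegree = 2 * g + 1) {P : E[X]} (hP : P = (f.map (algebraMap (𝓞 F) F)).map ι)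
    {I : Ideal (QA E[X] P)} (hI : I ≠ ⊥)
    (hdiv : ∀ n : ℕ, ∃ J : Ideal (QA E[X] P), J ≠ ⊥ ∧ Eqv (J ^ 2 ^ n) I) :
    ∃ x, Ideal.span {x} = I := by
  obtain ⟨π, h1, h2, h3⟩ := jo_reg u ι hu hR
  have U := jo_un u ι hu h1 h2
  haveI := U.dvr
  have h2k := jo_two u ι hu hσ h1 h2
  have hPO : P = mp E (f.map (jo u ι hu)) := by
    rw [hP]
    unfold mp
    rw [Polynomial.map_map, Polynomial.map_map]
    rfl
  subst hPO
  have hdd : (f.map (jo u ι hu)).natDegree = 2 * g + 1 := by rw [hm.natDegree_map, hd]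
  exact U.lc.main h2k (hm.map _) hdd h3 hI hdiv

include u hu in
/-- The class of an integral divisor of degree between `1` and `2 g` is not divisible by two. -/
theorem one_div (hσ : (2 : 𝓞 F) ∈ v.asIdeal) {f : (𝓞 F)[X]} (hR : RegAt v f) (hm : f.Monic) {g : ℕ}
    (hd : f.natDegree = 2 * g + 1) {P : E[X]} (hP : P = (f.map (algebraMap (𝓞 F) F)).map ι)
    {A B D : E[X]} (h : B ^ 2 - A * D = P) (hA : A.Monic) (hd1 : 1 ≤ A.natDegree)
    (hd2 : A.natDegree ≤ 2 * g) (hAi : ∀ j, u (A.coeff j) ≤ 1) (hBi : ∀ j, u (B.coeff j) ≤ 1)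
    {J : Ideal (QA E[X] P)} (hJ : J ≠ ⊥) (hE : Eqv (J ^ 2) (idl P A B)) : False := by
  obtain ⟨π, h1, h2, h3⟩ := jo_reg u ι hu hR
  have U := jo_un u ι hu h1 h2
  haveI := U.dvr
  have h2k := jo_two u ι hu hσ h1 h2
  have hPO : P = mp E (f.map (jo u ι hu)) := by
    rw [hP]
    unfold mp
    rw [Polynomial.map_map, Polynomial.map_map]
    rfl
  have hlift : ∀ Z : E[X], (∀ j, u (Z.coeff j) ≤ 1) → ∃ Z' : u.valuationSubring[X], mp E Z' = Z := by
    intro Z hZ
    have h2 : Z ∈ Polynomial.lifts (algebraMap u.valuationSubring E) := by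
      rw [Polynomial.lifts_iff_coeff_lifts]
      intro n
      exact ⟨⟨Z.coeff n, hZ n⟩, rfl⟩
    exact (Polynomial.mem_lifts Z).1 h2
  obtain ⟨A', rfl⟩ := hlift A hAi
  obtain ⟨B', rfl⟩ := hlift B hBi
  have hinj : Function.Injective (algebraMap u.valuationSubring E) := U.lc.inj
  have hA' : A'.Monic := by
    have := hA
    unfold mp at this
    exact Polynomial.monic_of_injective hinj this
  have hdd : (f.map (jo u ι hu)).natDegree = 2 * g + 1 := by rw [hm.natDegree_map, hd]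
  have hdA : (mp E A').natDegree = A'.natDegree := hA'.natDegree_map _
  obtain ⟨D', hD'⟩ : A' ∣ B' ^ 2 - f.map (jo u ι hu) := by
    have h5 : mp E A' ∣ mp E (B' ^ 2 - f.map (jo u ι hu)) := by
      refine ⟨D, ?_⟩
      unfold mp at h hPO ⊢
      rw [Polynomial.map_sub, Polynomial.map_pow, ← hPO, ← h]
      ring
    unfold mp at h5
    exact (Polynomial.map_dvd_map _ hinj hA').1 h5
  subst hPO
  rw [hdA] at hd1 hd2
  exact lvl1 U.lc h2k (hm.map _) hdd h3 (A := A') (B := B') (D := D') (by rw [← hD']; ring) hA' hd1 hd2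
    hJ hE

end glo

end Pool.Agent.H458.BM
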