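import Pool.Agent.H458.BM.Mfam
import Pool.Agent.H458.BM.Bnd

/-!
# Compactness for several curves
-/

set_option autoImplicit false
set_option linter.all false

open Polynomial IsDedekindDomain NumberField WithZero Topology
open scoped Classical nonZeroDivisors Valued

namespace Pool.Agent.H458.BM

open Pool.Agent.H458.PD

section scale

variable {K : Type} [Field K] {E : Type} [Field E] [Algebra K E] {g m r : ℕ} (X : MFamily K g m r)

theorem mscale {G} (hG : G ∈ X.eqs) (t : Fin (m + 1) → E) (u : Fin r × Fin 3 → E) (l : Fin r → E)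
    (h : MvPolynomial.aeval (Sum.elim t u) G = 0) (S : Finset (Fin r)) :
    MvPolynomial.aeval (Sum.elim t fun s => (if s.1 ∈ S then l s.1 else 1) ^ wts g s.2 * u s) G = 0 := by
  induction S using Finset.induction_on with
  | empty =>
    have e : (fun s : Fin r × Fin 3 => (if s.1 ∈ (∅ : Finset (Fin r)) then l s.1 else 1) ^ wts g s.2 *
        u s) = u := by
      funext s
      simp
    rw [e]
    exact h
  | insert j S hj ih =>
    obtain ⟨d, hd⟩ := X.homC G hG j
    have h1 := aeval_scale hd (Sum.elim t fun s => (if s.1 ∈ S then l s.1 else 1) ^ wts g s.2 * u s) (l j)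
    rw [ih, mul_zero] at h1
    convert h1 using 3
    funext s
    rcases s with i | s
    · simp
    · simp only [Sum.elim_inr, Finset.mem_insert]
      by_cases hs : s.1 = j
      · rw [if_pos (Or.inl hs), if_pos hs, if_neg (by rw [hs]; exact hj), one_pow, one_mul, hs]
      · rw [if_neg hs, pow_zero, one_mul]
        congr 2
        simp [hs]

theorem mscale' {G} (hG : G ∈ X.eqs) (t : Fin (m + 1) → E) (u : Fin r × Fin 3 → E) (l0 : E)
    (l : Fin r → E) (h : MvPolynomial.aeval (Sum.elim t u) G = 0) :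
    MvPolynomial.aeval (Sum.elim (fun i => l0 * t i) fun s => l s.1 ^ wts g s.2 * u s) G = 0 := by
  have h1 := mscale X hG t u l h Finset.univ
  obtain ⟨d, hd⟩ := X.homT G hG
  have h2 := aeval_scale hd (Sum.elim t fun s => (if s.1 ∈ (Finset.univ : Finset (Fin r)) then l s.1 else 1) ^ wts g s.2 * u s) l0
  rw [h1, mul_zero] at h2
  convert h2 using 3
  funext s
  rcases s with i | s
  · simp
  · simp

end scale

section main

variable {M : Type} [Field M] [NumberField M] {w : HeightOneSpectrum (𝓞 M)} {g m r : ℕ}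

/-- The coordinates near infinity. -/
theorem near_coords {P : M[X]} (hm : P.Monic) (hd : P.natDegree = 2 * g + 1)
    (hP : ∀ j, w.valuation M (P.coeff j) ≤ 1) {c : w.adicCompletion M} (hc : c ≠ 0)
    (hc1 : Valued.v c < (1 : ℤᵐ⁰)) (n : ℕ) (z : Point P (w.adicCompletion M))
    (hz : ∀ p, z = some p → 1 ≤ (Valued.v c : ℤᵐ⁰) ^ (n + 1) * Valued.v p.1.1) :
    ∃ l V W : w.adicCompletion M, (∀ k, l ^ wts g k * wcoords z k = ![1, V, W] k) ∧
      (Valued.v V : ℤᵐ⁰) ≤ 1 ∧ (Valued.v W : ℤᵐ⁰) ≤ Valued.v (c ^ n) ∧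
      V ^ 2 = W * (P.map (algebraMap M (w.adicCompletion M))).reverse.eval W := by
  cases z with
  | none =>
    refine ⟨1, 0, 0, fun k => ?_, ?_, ?_, ?_⟩
    · rw [one_pow, one_mul]
      rfl
    · rw [_root_.map_zero]; exact zero_le'
    · rw [_root_.map_zero]; exact zero_le'
    · rw [zero_mul, zero_pow two_ne_zero]
  | some p =>
    obtain ⟨⟨x, y⟩, hxy⟩ := p
    have hv := hz _ rfl
    simp only at hxy hv
    obtain ⟨Pw, hPw⟩ : ∃ Pw, Pw = P.map (algebraMap M (w.adicCompletion M)) := ⟨_, rfl⟩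
    have hPwm : Pw.Monic := by rw [hPw]; exact hm.map _
    have hPwd : Pw.natDegree = 2 * g + 1 := by rw [hPw, hm.natDegree_map, hd]
    have hPwi : ∀ j, (Valued.v (Pw.coeff j) : ℤᵐ⁰) ≤ 1 := by
      intro j
      rw [hPw, coeff_map]
      exact (w.valuedAdicCompletion_eq_valuation' _).le.trans (hP j)
    have hvc : (Valued.v c : ℤᵐ⁰) ≠ 0 := by rwa [Ne, map_eq_zero]
    have hvx : 1 < (Valued.v x : ℤᵐ⁰) := by
      by_contra h
      rw [not_lt] at h
      have h1 : (Valued.v c : ℤᵐ⁰) ^ (n + 1) * Valued.v x < 1 := by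
        refine lt_of_le_of_lt (mul_le_of_le_one_right zero_le' h) ?_
        exact pow_lt_one₀ zero_le' hc1 (Nat.succ_ne_zero n)
      exact absurd hv (not_le.2 h1)
    have hx0 : x ≠ 0 := by
      rintro rfl
      rw [_root_.map_zero] at hvx
      exact absurd hvx (not_lt.2 zero_le')
    have hvx0 : (Valued.v x : ℤᵐ⁰) ≠ 0 := by rwa [Ne, map_eq_zero]
    have hyx : (Valued.v y : ℤᵐ⁰) ^ 2 = Valued.v x ^ (2 * g + 1) := by
      rw [← _root_.map_pow, hxy, ← hPw]
      exact val_eval _ hPwm hPwd hPwi hvx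
    refine ⟨x⁻¹, (x⁻¹) ^ (g + 1) * y, x⁻¹, ?_, ?_, ?_, ?_⟩
    · intro k
      fin_cases k
      · show (x⁻¹) ^ 1 * x = 1
        rw [pow_one, inv_mul_cancel₀ hx0]
      · rfl
      · show (x⁻¹) ^ 1 * 1 = x⁻¹
        rw [pow_one, mul_one]
    · have h1 : ((Valued.v ((x⁻¹) ^ (g + 1) * y) : ℤᵐ⁰)) ^ 2 ≤ 1 := by
        rw [_root_.map_mul, _root_.map_pow, map_inv₀, mul_pow, hyx, ← pow_mul]
        have h2 : ((Valued.v x : ℤᵐ⁰)⁻¹) ^ ((g + 1) * 2) * Valued.v x ^ (2 * g + 1) =
            (Valued.v x : ℤᵐ⁰)⁻¹ := by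
          rw [show (g + 1) * 2 = (2 * g + 1) + 1 by ring, pow_succ, mul_right_comm, ← mul_pow,
            inv_mul_cancel₀ hvx0, one_pow, one_mul]
        rw [h2]
        exact inv_le_one_of_one_le₀ hvx.le
      by_contra h
      rw [not_le] at h
      exact absurd h1 (not_le.2 (one_lt_pow' h two_ne_zero))
    · rw [map_inv₀, _root_.map_pow]
      rw [inv_le_iff_one_le_mul₀ (zero_lt_iff.2 hvx0)]
      refine hv.trans (mul_le_mul_left ?_ _)
      exact pow_le_pow_right_of_le_one' hc1.le (Nat.le_succ n)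
    · letI : Invertible x := invertibleOfNonzero hx0
      have h1 := eval₂_reverse_mul_pow (RingHom.id (w.adicCompletion M)) x Pw
      rw [invOf_eq_inv, hPwd] at h1
      have h2 : eval x⁻¹ Pw.reverse * x ^ (2 * g + 1) = eval x Pw := h1
      have h3 : y ^ 2 = eval x Pw := by rw [hxy, hPw]
      rw [← hPw]
      rw [mul_pow, h3, ← h2, ← pow_mul]
      have h4 : (x⁻¹) ^ ((g + 1) * 2) * x ^ (2 * g + 1) = x⁻¹ := by
        rw [show (g + 1) * 2 = (2 * g + 1) + 1 by ring, pow_succ, mul_right_comm, ← mul_pow,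
          inv_mul_cancel₀ hx0, one_pow, one_mul]
      calc (x⁻¹) ^ ((g + 1) * 2) * (eval x⁻¹ Pw.reverse * x ^ (2 * g + 1)) =
            ((x⁻¹) ^ ((g + 1) * 2) * x ^ (2 * g + 1)) * eval x⁻¹ Pw.reverse := by ring
        _ = _ := by rw [h4]

/-- **Compactness for several curves.** -/
theorem mbounded {P : Fin r → M[X]} (hm : ∀ i, (P i).Monic) (hd : ∀ i, (P i).natDegree = 2 * g + 1)
    (hP : ∀ i j, w.valuation M ((P i).coeff j) ≤ 1) (X : MFamily M g m r)
    (hX : ¬ X.Lies (E := w.adicCompletion M) fun i => (none : Point (P i) (w.adicCompletion M)))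
    {c : w.adicCompletion M} (hc : c ≠ 0) (hc1 : Valued.v c < (1 : ℤᵐ⁰)) :
    ∃ n : ℕ, ∀ z : ∀ i, Point (P i) (w.adicCompletion M), X.Lies z →
      ∃ i p, z i = some p ∧ (Valued.v c : ℤᵐ⁰) ^ n * Valued.v p.1.1 < 1 := by
  by_contra hcon
  push Not at hcon
  obtain ⟨S, hS⟩ : ∃ S : ℕ → Set ((Fin (m + 1) → w.adicCompletion M) ×
      (Fin r → w.adicCompletion M) × (Fin r → w.adicCompletion M)),
      ∀ n, S n = {q | (∀ i, (Valued.v (q.1 i) : ℤᵐ⁰) ≤ 1) ∧ (∃ i, q.1 i = 1) ∧
      (∀ j, (Valued.v (q.2.1 j) : ℤᵐ⁰) ≤ 1) ∧ (∀ j, (Valued.v (q.2.2 j) : ℤᵐ⁰) ≤ Valued.v (c ^ n)) ∧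
      (∀ j, q.2.1 j ^ 2 = q.2.2 j *
        ((P j).map (algebraMap M (w.adicCompletion M))).reverse.eval (q.2.2 j)) ∧
      ∀ G ∈ X.eqs, MvPolynomial.aeval
        (Sum.elim q.1 fun s => ![1, q.2.1 s.1, q.2.2 s.1] s.2) G = 0} := ⟨_, fun n => rfl⟩
  have hcn : ∀ n, (c ^ n : w.adicCompletion M) ≠ 0 := fun n => pow_ne_zero n hc
  have hne : ∀ n, (S n).Nonempty := by
    intro n
    obtain ⟨z, ⟨t, ht0, ht⟩, hv⟩ := hcon (n + 1)
    choose l V W h1 h2 h3 h4 using fun i => near_coords (hm i) (hd i) (hP i) hc hc1 n (z i)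
      fun p hp => hv i p hp
    obtain ⟨i₀, hi₀⟩ : ∃ i₀, ∀ i, (Valued.v (t i) : ℤᵐ⁰) ≤ Valued.v (t i₀) :=
      Finite.exists_max _
    have hti : t i₀ ≠ 0 := by
      intro h
      apply ht0
      funext i
      have h1 := hi₀ i
      rw [h, _root_.map_zero, le_zero_iff, map_eq_zero] at h1
      exact h1
    have hvti : (Valued.v (t i₀) : ℤᵐ⁰) ≠ 0 := by rwa [Ne, map_eq_zero]
    refine ⟨(fun i => (t i₀)⁻¹ * t i, V, W), ?_⟩
    rw [hS]
    refine ⟨fun i => ?_, ⟨i₀, inv_mul_cancel₀ hti⟩, h2, h3, h4, fun G hG => ?_⟩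
    · simp only
      rw [_root_.map_mul, map_inv₀, inv_mul_le_iff₀ (zero_lt_iff.2 hvti), mul_one]
      exact hi₀ i
    · have h5 := mscale' X hG t (fun s => wcoords (z s.1) s.2) ((t i₀)⁻¹) l (ht G hG)
      have e : (fun s : Fin r × Fin 3 => l s.1 ^ wts g s.2 * wcoords (z s.1) s.2) =
          fun s => ![1, V s.1, W s.1] s.2 := by
        funext s
        exact h1 s.1 s.2
      rw [e] at h5
      exact h5
  have hdec : ∀ n, S (n + 1) ⊆ S n := by
    intro n q hq
    rw [hS] at hq ⊢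
    refine ⟨hq.1, hq.2.1, hq.2.2.1, fun j => (hq.2.2.2.1 j).trans ?_, hq.2.2.2.2⟩
    rw [_root_.map_pow, _root_.map_pow]
    exact pow_le_pow_right_of_le_one' hc1.le (Nat.le_succ n)
  have hcl : ∀ n, IsClosed (S n) := by
    intro n
    rw [hS]
    have hcont : Continuous fun q : (Fin (m + 1) → w.adicCompletion M) ×
        (Fin r → w.adicCompletion M) × (Fin r → w.adicCompletion M) =>
          (Sum.elim q.1 (fun s => ![1, q.2.1 s.1, q.2.2 s.1] s.2) : Fin (m + 1) ⊕ (Fin r × Fin 3) →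
          w.adicCompletion M) := by
      refine continuous_pi fun i => ?_
      rcases i with i | ⟨i, k⟩
      · simp only [Sum.elim_inl]
        fun_prop
      · fin_cases k
        · simp only [Sum.elim_inr]
          exact continuous_const
        · simp only [Sum.elim_inr]
          exact (continuous_apply i).comp continuous_snd.fst
        · simp only [Sum.elim_inr]
          exact (continuous_apply i).comp continuous_snd.snd
    refine IsClosed.and ?_ (IsClosed.and ?_ (IsClosed.and ?_ (IsClosed.and ?_ (IsClosed.and ?_ ?_))))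
    · simp only [Set.setOf_forall]
      exact isClosed_iInter fun i => (cpt w).isClosed.preimage (by fun_prop)
    · simp only [Set.setOf_exists]
      exact isClosed_iUnion_of_finite fun i => isClosed_eq (by fun_prop) continuous_const
    · simp only [Set.setOf_forall]
      exact isClosed_iInter fun i => (cpt w).isClosed.preimage (by fun_prop)
    · simp only [Set.setOf_forall]
      exact isClosed_iInter fun i => (closed_le w _ (hcn n)).preimage (by fun_prop)
    · simp only [Set.setOf_forall]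
      refine isClosed_iInter fun i => isClosed_eq (by fun_prop) ?_
      have h1 : Continuous fun q : (Fin (m + 1) → w.adicCompletion M) ×
        (Fin r → w.adicCompletion M) × (Fin r → w.adicCompletion M) => q.2.2 i :=
        (continuous_apply i).comp continuous_snd.snd
      exact h1.mul ((Polynomial.continuous _).comp h1)
    · simp only [Set.setOf_forall]
      refine isClosed_iInter fun G => isClosed_iInter fun hG => isClosed_eq ?_ continuous_const
      simp only [MvPolynomial.aeval_def, MvPolynomial.eval₂_eq_eval_map]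
      exact (MvPolynomial.continuous_eval _).comp hcont
  have hcp : IsCompact (S 0) := by
    refine IsCompact.of_isClosed_subset ((isCompact_univ_pi fun _ => cpt w).prod
      ((isCompact_univ_pi fun _ => cpt w).prod (isCompact_univ_pi fun _ => cpt w))) (hcl 0) ?_
    intro q hq
    rw [hS] at hq
    refine ⟨fun i _ => hq.1 i, fun i _ => hq.2.2.1 i, fun i _ => ?_⟩
    have h1 := hq.2.2.2.1 i
    rw [pow_zero, _root_.map_one] at h1
    exact h1
  obtain ⟨q, hq⟩ := IsCompact.nonempty_iInter_of_sequence_nonempty_isCompact_isClosed S hdec hne hcp hcl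
  rw [Set.mem_iInter] at hq
  have hz : ∀ j, q.2.2 j = 0 := by
    intro j
    by_contra h0
    have hvz : (Valued.v (q.2.2 j) : ℤᵐ⁰) ≠ 0 := by rwa [Ne, map_eq_zero]
    have hvc : (Valued.v c : ℤᵐ⁰) ≠ 0 := by rwa [Ne, map_eq_zero]
    obtain ⟨k, hk⟩ : ∃ k : ℤ, (Valued.v (q.2.2 j) : ℤᵐ⁰) = exp k := ⟨_, (exp_log hvz).symm⟩
    obtain ⟨l, hl⟩ : ∃ l : ℤ, (Valued.v c : ℤᵐ⁰) = exp l := ⟨_, (exp_log hvc).symm⟩
    rw [hl, ← exp_zero, exp_lt_exp] at hc1
    have h1 := hq ((-k).toNat + 1)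
    rw [hS] at h1
    have h2 := h1.2.2.2.1 j
    rw [_root_.map_pow, hk, hl, ← exp_nsmul, exp_le_exp, nsmul_eq_mul] at h2
    have h3 : -k ≤ ((-k).toNat : ℤ) := Int.self_le_toNat _
    push_cast at h2
    nlinarith
  have hq0 := hq 0
  rw [hS] at hq0
  obtain ⟨h1, ⟨i, hi⟩, h3, h4, h5, h6⟩ := hq0
  have hy : ∀ j, q.2.1 j = 0 := by
    intro j
    have h7 := h5 j
    rw [hz, zero_mul] at h7
    exact pow_eq_zero_iff two_ne_zero |>.1 h7
  apply hX
  refine ⟨q.1, ?_, fun G hG => ?_⟩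
  · intro h0
    rw [h0] at hi
    exact zero_ne_one hi
  · have := h6 G hG
    simp only [hy, hz] at this
    exact this

end main

section final

variable {F : Type} [Field F] [NumberField F] {M : Type} [Field M] [NumberField M] [Algebra F M]
  {g m r : ℕ}

/-- **Several curves.** -/
theorem mfamily_bound {f : Fin r → (𝓞 F)[X]} {P : Fin r → M[X]} (hm : ∀ i, (f i).Monic) (hg : 1 ≤ g)
    (hd : ∀ i, (f i).natDegree = 2 * g + 1)
    (hP : ∀ i, P i = ((f i).map (algebraMap (𝓞 F) F)).map (algebraMap F M))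
    {v : HeightOneSpectrum (𝓞 F)} (hv : (2 : 𝓞 F) ∈ v.asIdeal) (hR : ∀ i, RegAt v (f i))
    {w : HeightOneSpectrum (𝓞 M)}
    (h : ∀ x : F, w.valuation M (algebraMap F M x) = v.valuation F x) (X : MFamily M g m r)
    (hX : ¬ X.Lies (E := w.adicCompletion M) fun i => (none : Point (P i) (w.adicCompletion M))) :
    ∃ n : ℕ, 1 ≤ n ∧ ∀ z : ∀ i, Point (P i) (w.adicCompletion M), X.Lies z →
      ¬ ∀ i, ClassIsPower (2 ^ n) (z i) := by
  have hPm : ∀ i, (P i).Monic := fun i => by rw [hP]; exact ((hm i).map _).map _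
  have hPd : ∀ i, (P i).natDegree = 2 * g + 1 := fun i => by
    rw [hP, ((hm i).map _).natDegree_map, (hm i).natDegree_map, hd i]
  have h20 : (2 : w.adicCompletion M) ≠ 0 := by
    intro h0
    have h1 : algebraMap M (w.adicCompletion M) 2 = 0 := by rw [map_ofNat]; exact h0
    rw [map_eq_zero] at h1
    exact two_ne_zero h1
  have h21 := val_two hv h
  obtain ⟨n, hn⟩ := mbounded hPm hPd (fun i => P_int (hP i) h) X hX h20 h21
  refine ⟨n + 1, by omega, fun z hz hpow => ?_⟩
  obtain ⟨i, p, hi, h1⟩ := hn z hz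
  have h3 := hpow i
  rw [hi] at h3
  have h2 := point_bound (hm i) hg (hd i) (hP i) hv (hR i) h p (by omega) h3
  refine absurd (h2.trans (mul_le_mul_left ?_ _)) (not_le.2 h1)
  exact pow_le_pow_right_of_le_one' h21.le (by omega)

end final

end Pool.Agent.H458.BM
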