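import Pool.Agent.H458.BM.Def

/-!
# Projective varieties with a morphism to a product of curves
-/

set_option autoImplicit false
set_option linter.all false

open Polynomial IsDedekindDomain
open scoped nonZeroDivisors

namespace Pool.Agent.H458.BM

/-- The weights of the coordinates `U`, `V`, `W`. -/
def wts (g : ℕ) : Fin 3 → ℕ := ![1, g + 1, 1]

/-- A closed subvariety `X` of the product of the projective space of dimension `m` over `K` and of `r`
curves `C_1, ..., C_r`. The curve `C_i` has the equation `V ^ 2 = W F_i(U, W)`, `F_i` homogeneous of degree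
`2 g + 1`, in the weighted projective plane with the coordinates `U`, `V`, `W` of weights `1`, `g + 1`,
`1`. The variety `X` is given by a set of polynomials in the coordinates `T_0, ..., T_m` of the projective space
and in the coordinates `(U_i, V_i, W_i)`, `i = 1, ..., r`, which are homogeneous in `T_0, ..., T_m` and
weighted homogeneous in `(U_i, V_i, W_i)` for every `i`. Every projective variety over `K` with
morphisms to the curves `C_1, ..., C_r` is isomorphic to such a variety with the projections (the graph of
the morphism to the product). -/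
structure MFamily (K : Type) [Field K] (g m r : ℕ) where
  eqs : Set (MvPolynomial (Fin (m + 1) ⊕ (Fin r × Fin 3)) K)
  homT : ∀ G ∈ eqs, ∃ d : ℕ, G.IsWeightedHomogeneous (Sum.elim (fun _ => 1) (fun _ => 0)) d
  homC : ∀ G ∈ eqs, ∀ i : Fin r, ∃ d : ℕ, G.IsWeightedHomogeneous
    (Sum.elim (fun _ => 0) (fun s => if s.1 = i then wts g s.2 else 0)) d

section

variable {K : Type} [Field K] {E : Type} [Field E] [Algebra K E]

/-- The coordinates `U`, `V`, `W` of a point of `C`: `(1, 0, 0)` for the point at infinity and
`(x, y, 1)` for the affine point `(x, y)`. -/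
def wcoords {P : K[X]} (z : Point P E) : Fin 3 → E :=
  Option.elim z ![1, 0, 0] fun p => ![p.1.1, p.1.2, 1]

/-- The point `z = (z_1, ..., z_r)` of the product of the curves over the extension `E` of `K` is the image of
a point of `X` over `E`: there are homogeneous coordinates `T` in `E`, not all zero, such that the point
`(T, z)` satisfies the equations of `X`. -/
def MFamily.Lies {g m r : ℕ} (X : MFamily K g m r) {P : Fin r → K[X]} (z : ∀ i, Point (P i) E) :
    Prop :=
  ∃ t : Fin (m + 1) → E, t ≠ 0 ∧
    ∀ G ∈ X.eqs, MvPolynomial.aeval (Sum.elim t fun s => wcoords (z s.1) s.2) G = 0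

end

section

variable {K : Type} [Field K] {R : Type} [CommRing R] [IsDedekindDomain R] [Algebra R K]
  [IsFractionRing R K]

/-- The real point `z` of the product of the curves is the image of a real point of `X`. -/
def MFamily.LiesReal {g m r : ℕ} (X : MFamily K g m r) {P : Fin r → K[X]} {ρ : K →+* ℝ}
    (z : ∀ i, RealPoint (P i) ρ) : Prop :=
  letI := ρ.toAlgebra; X.Lies (E := ℝ) fun i => (z i : Point (P i) ℝ)

/-- The adelic point `z` of the product of the curves is the image of an adelic point of `X`. -/
def MFamily.LiesAdelic {g m r : ℕ} (X : MFamily K g m r) {P : Fin r → K[X]}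
    (z : ∀ i, AdelicPoint (P i) R) : Prop :=
  (∀ w : HeightOneSpectrum R, X.Lies fun i => (z i).finite w) ∧
    ∀ ρ : K →+* ℝ, X.LiesReal fun i => (z i).real ρ

/-- No adelic point of `X` lifts to an adelic point of the pull-back to `X` of a product of
`n`-coverings of the curves `C_1, ..., C_r`. -/
def MFamily.EmptySelmerSet {g m r : ℕ} (X : MFamily K g m r) (P : Fin r → K[X]) (R : Type) [CommRing R]
    [IsDedekindDomain R] [Algebra R K] [IsFractionRing R K] (n : ℕ) : Prop :=
  ∀ z : ∀ i, AdelicPoint (P i) R, X.LiesAdelic z → ¬ ∀ i, Survives n (z i)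

end

end Pool.Agent.H458.BM
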