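import Pool.Agent.H458.BM.Pnt

/-!
# The class of a point which is not integral: an explicit bound for its divisibility by powers of two
-/

set_option autoImplicit false
set_option linter.all false

open Polynomial IsDedekindDomain NumberField WithZero
open scoped Classical nonZeroDivisors

namespace Pool.Agent.H458.BM

open Pool.Agent.H458.PD
open Pool.Agent.Y160.SE (CR xp yy)

section

variable {O K k : Type} [CommRing O] [IsDomain O] [Field K] [Algebra O K] [Field k]
  {red : O →+* k} {π : O} (L : Lc O K k red π)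

include L

/-- **Level `s + 1`.** -/
theorem lvln [IsPrincipalIdealRing O] (h2 : (2 : k) = 0) {f : O[X]} (hfm : f.Monic) {g : ℕ}
    (hg : 1 ≤ g) (hfd : f.natDegree = 2 * g + 1) (hR : Reg red π f) {A D : O[X]} {c : O}
    (h : (C c * X ^ (g + 1)) ^ 2 - A * D = f) (hA : A.Monic) (hdA : A.natDegree = 2 * g + 1)
    {J : Ideal (QA K[X] (mp K f))} (hJ : J ≠ ⊥) (s : ℕ)
    (hE : Eqv (J ^ 2 ^ (s + 1)) (idl (mp K f) (mp K A) (mp K (C c * X ^ (g + 1))))) :
    2 ^ (s + 1) ∣ c := by
  have hfo : Odd f.natDegree := by rw [hfd]; exact odd_two_mul_add_one g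
  have hfK : (mp K f).natDegree = 2 * g + 1 := by
    unfold mp
    rw [natDegree_map_eq_of_injective L.inj, hfd]
  haveI : IsDomain (QA K[X] (mp K f)) := isDomain (by rw [hfK]; exact odd_two_mul_add_one g)
  obtain ⟨A', B', D', h', hA', hc', hE'⟩ := L.good h2 hfm hfd hR hJ
  obtain ⟨p, q, h3, h4, ⟨z, hz⟩, h6⟩ := L.step h2 hfm hfd h hA (cop1 L h2 hfm hfo hR h hA) h' hA' hc' s
    ((hE'.symm.pow _).trans hE)
  have hq0 : q.natDegree = 0 := by
    by_cases hq : q = 0
    · rw [hq, natDegree_zero]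
    · have := h4 hq
      omega
  obtain ⟨r, rfl⟩ := natDegree_eq_zero.1 hq0
  have hpd : p.natDegree ≤ g := by omega
  have e0 : p - C r * (C c * X ^ (g + 1)) = p - C (r * c) * X ^ (g + 1) := by
    rw [C_mul]; ring
  have hmod : (p - C r * (C c * X ^ (g + 1))) %ₘ A = p - C (r * c) * X ^ (g + 1) := by
    rw [e0, modByMonic_eq_self_iff hA]
    apply degree_lt_degree
    refine lt_of_le_of_lt (natDegree_sub_le _ _) ?_
    rw [hdA]
    refine max_lt (by omega) ?_
    exact lt_of_le_of_lt (natDegree_C_mul_X_pow_le _ _) (by omega)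
  rw [hmod] at hz
  have h2c : ∀ j, (p - C (r * c) * X ^ (g + 1)).coeff j = 2 ^ (s + 1) * z.coeff j := by
    intro j
    rw [hz]
    have e2 : (2 : O[X]) ^ (s + 1) = C (2 ^ (s + 1)) := by
      rw [_root_.map_pow, C_ofNat]
    rw [e2, coeff_C_mul]
  have h2r : red 2 = 0 := by rw [map_ofNat, h2]
  have hp : p.map red = 0 := by
    ext j
    rw [coeff_map, coeff_zero]
    by_cases hj : j = g + 1
    · rw [hj, coeff_eq_zero_of_natDegree_lt (by omega : p.natDegree < g + 1), _root_.map_zero]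
    · have h7 := h2c j
      rw [coeff_sub, coeff_C_mul, coeff_X_pow, if_neg hj, mul_zero, sub_zero] at h7
      rw [h7, _root_.map_mul, _root_.map_pow, h2r, zero_pow (Nat.succ_ne_zero _), zero_mul]
  have hr : red r ≠ 0 := by
    intro hr
    apply h6
    refine ⟨hp, ?_⟩
    rw [map_C, hr, C_0]
  have hru := L.unit r hr
  have h8 := h2c (g + 1)
  rw [coeff_sub, coeff_C_mul, coeff_X_pow, if_pos rfl, mul_one,
    coeff_eq_zero_of_natDegree_lt (by omega : p.natDegree < g + 1), zero_sub] at h8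
  have h9 : 2 ^ (s + 1) ∣ r * c := ⟨-z.coeff (g + 1), by rw [mul_neg, ← h8, neg_neg]⟩
  exact (hru.dvd_mul_left).1 h9

end

section alg

variable {R : Type} [CommRing R] {f : R}

/-- `(D, B + y)` and `(A, B - y)` are in the same class. -/
theorem idl_swap {A B D : R} (h : B ^ 2 - A * D = f) :
    Ideal.span {xx f A} * idl' f D B = Ideal.span {-by' f (-B)} * idl f A B := by
  unfold idl idl'
  rw [Ideal.span_mul_span, Ideal.span_mul_span]
  have e1 : xx f A * xx f D = (-by' f (-B)) * by' f B := by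
    rw [mul_comm (-by' f (-B)), by_mul, ← xx_mul]
    congr 1
    rw [← h]; ring
  apply le_antisymm
  · rw [Ideal.span_le]
    rintro w ⟨a, ha, b, hb, rfl⟩
    simp only [Set.mem_singleton_iff, Set.mem_insert_iff] at ha hb
    subst ha
    rcases hb with rfl | rfl
    · simp only
      rw [e1]
      exact Ideal.subset_span ⟨_, rfl, _, by simp, rfl⟩
    · simp only
      rw [mul_comm]
      exact Ideal.subset_span ⟨_, rfl, _, by simp, rfl⟩
  · rw [Ideal.span_le]
    rintro w ⟨a, ha, b, hb, rfl⟩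
    simp only [Set.mem_singleton_iff, Set.mem_insert_iff] at ha hb
    subst ha
    rcases hb with rfl | rfl
    · simp only
      rw [mul_comm]
      exact Ideal.subset_span ⟨_, rfl, _, by simp, rfl⟩
    · simp only
      rw [← e1]
      exact Ideal.subset_span ⟨_, rfl, _, by simp, rfl⟩

/-- Changing the second generator. -/
theorem idl'_congr {A B B' : R} {t : R} (h : B + B' = A * t) : idl' f A B = idl f A B' := by
  have e1 : -by' f (-B) = xx f t * xx f A - by' f B' := by
    ext
    · simp only [QuadraticAlgebra.re_neg, QuadraticAlgebra.re_sub, QuadraticAlgebra.re_mul, xx, by']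
      linear_combination h
    · simp only [QuadraticAlgebra.im_neg, QuadraticAlgebra.im_sub, QuadraticAlgebra.im_mul, xx, by']
      ring
  unfold idl idl'
  apply le_antisymm
  · rw [Ideal.span_le]
    intro w hw
    simp only [Set.mem_insert_iff, Set.mem_singleton_iff] at hw
    rcases hw with rfl | rfl
    · exact Ideal.subset_span (by simp)
    · rw [e1]
      exact Ideal.sub_mem _ (Ideal.mul_mem_left _ _ (Ideal.subset_span (by simp)))
        (Ideal.subset_span (by simp))
  · rw [Ideal.span_le]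
    intro w hw
    simp only [Set.mem_insert_iff, Set.mem_singleton_iff] at hw
    rcases hw with rfl | rfl
    · exact Ideal.subset_span (by simp)
    · have e2 : by' f B' = xx f t * xx f A - -by' f (-B) := by rw [e1]; ring
      rw [e2]
      exact Ideal.sub_mem _ (Ideal.mul_mem_left _ _ (Ideal.subset_span (by simp)))
        (Ideal.subset_span (by simp))

end alg

section val

variable {E : Type} [Field E] (u : Valuation E ℤᵐ⁰)

/-- The value of a monic polynomial with integral coefficients at an element which is not integral. -/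
theorem val_eval {P : E[X]} (hm : P.Monic) {n : ℕ} (hd : P.natDegree = n) (hP : ∀ j, u (P.coeff j) ≤ 1)
    {a : E} (ha : 1 < u a) : u (P.eval a) = u a ^ n := by
  rcases Nat.eq_zero_or_pos n with hn | hn
  · rw [hn] at hd ⊢
    rw [hm.natDegree_eq_zero.1 hd, eval_one, _root_.map_one, pow_zero]
  rw [eval_eq_sum_range, Finset.sum_range_succ, hd]
  have h1 : P.coeff n = 1 := by rw [← hd]; exact hm.coeff_natDegree
  rw [h1, one_mul, ← _root_.map_pow]
  apply Valuation.map_add_eq_of_lt_right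
  have ha0 : u a ≠ 0 := (lt_trans zero_lt_one ha).ne'
  have h2 : u (∑ i ∈ Finset.range n, P.coeff i * a ^ i) ≤ u a ^ (n - 1) := by
    apply Valuation.map_sum_le
    intro i hi
    rw [_root_.map_mul, _root_.map_pow]
    have hi' := Finset.mem_range.1 hi
    calc u (P.coeff i) * u a ^ i ≤ 1 * u a ^ i := by gcongr; exact hP i
      _ = u a ^ i := one_mul _
      _ ≤ u a ^ (n - 1) := pow_le_pow_right₀ ha.le (by omega)
  refine lt_of_le_of_lt h2 ?_
  rw [_root_.map_pow]
  exact pow_lt_pow_right₀ ha (by omega)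

/-- The quotient of `F` by `c ^ 2 X - e` has integral coefficients if `e` is a unit. -/
theorem val_quot {A F : E[X]} {c2 e : E} (hc : u c2 ≤ 1) (he : u e = 1)
    (h : A * (C c2 * X - C e) = F) (hF : ∀ j, u (F.coeff j) ≤ 1) : ∀ j, u (A.coeff j) ≤ 1 := by
  intro j
  have e0 : A * (C c2 * X - C e) = C c2 * (A * X) - C e * A := by ring
  rw [e0] at h
  induction j with
  | zero =>
    have h1 : (C c2 * (A * X) - C e * A).coeff 0 = F.coeff 0 := by rw [h]
    rw [coeff_sub, coeff_C_mul, coeff_C_mul, mul_coeff_zero, coeff_X_zero, mul_zero, mul_zero,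
      zero_sub] at h1
    have h2 : u (A.coeff 0) = u (F.coeff 0) := by
      rw [← h1, Valuation.map_neg, _root_.map_mul, he, one_mul]
    rw [h2]
    exact hF 0
  | succ j ih =>
    have h1 := congrArg (fun p => coeff p (j + 1)) h
    simp only [coeff_sub, coeff_C_mul, coeff_mul_X] at h1
    have h2 : e * A.coeff (j + 1) = c2 * A.coeff j - F.coeff (j + 1) := by
      rw [← h1]; ring
    have h3 : u (A.coeff (j + 1)) = u (c2 * A.coeff j - F.coeff (j + 1)) := by
      rw [← h2, _root_.map_mul, he, one_mul]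
    rw [h3]
    refine (Valuation.map_sub _ _ _).trans (max_le ?_ (hF _))
    rw [_root_.map_mul]
    exact mul_le_one' hc ih

end val

section loc

variable {F : Type} [Field F] [NumberField F]

variable {E : Type} [Field E] {v : HeightOneSpectrum (𝓞 F)} (u : Valuation E ℤᵐ⁰)
  (ι : F →+* E) (hu : ∀ a : 𝓞 F, u (ι (a : F)) = v.intValuation a)

include u hu in
/-- **The bound.** If the class of a point which is not integral is divisible by `2 ^ (s + 1)`, then
`|x| ≥ |2| ^ (- 2 (s + 1))`. -/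
theorem pt_bound (hσ : (2 : 𝓞 F) ∈ v.asIdeal) {f : (𝓞 F)[X]} (hR : RegAt v f) (hm : f.Monic) {g : ℕ}
    (hg : 1 ≤ g) (hd : f.natDegree = 2 * g + 1) {P : E[X]}
    (hP : P = (f.map (algebraMap (𝓞 F) F)).map ι) {a b : E} (hab : b ^ 2 = P.eval a) (ha : 1 < u a)
    (s : ℕ) {J : Ideal (QA E[X] P)} (hJ : J ≠ ⊥)
    (hE : Eqv (J ^ 2 ^ (s + 1)) (idl P (X - C a) (C b))) : 1 ≤ u 2 ^ (2 * (s + 1)) * u a := by
  have hPm : P.Monic := by rw [hP]; exact (hm.map _).map _
  have hPd : P.natDegree = 2 * g + 1 := by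
    rw [hP, (hm.map _).natDegree_map, hm.natDegree_map, hd]
  haveI : IsDomain (QA E[X] P) := isDomain (by rw [hPd]; exact odd_two_mul_add_one g)
  have hPi : ∀ j, u (P.coeff j) ≤ 1 := by
    intro j
    rw [hP, coeff_map, coeff_map]
    exact (hu (f.coeff j)).le.trans (v.intValuation_le_one _)
  have ha0 : a ≠ 0 := by
    rintro rfl
    rw [_root_.map_zero] at ha
    exact absurd ha (not_lt.2 zero_le')
  have hua0 : u a ≠ 0 := by rwa [Ne, map_eq_zero]
  have hub : u b ^ 2 = u a ^ (2 * g + 1) := by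
    rw [← _root_.map_pow, hab]
    exact val_eval u hPm hPd hPi ha
  obtain ⟨c, hc⟩ : ∃ c, c = -b / a ^ (g + 1) := ⟨_, rfl⟩
  have hca : c * a ^ (g + 1) = -b := by
    rw [hc, div_mul_cancel₀ _ (pow_ne_zero _ ha0)]
  have huc : u c ^ 2 * u a = 1 := by
    have h1 : (u c * u a ^ (g + 1)) ^ 2 = u a ^ (2 * g + 1) := by
      rw [← _root_.map_pow, ← _root_.map_mul, hca, Valuation.map_neg, hub]
    have h2 : (u c ^ 2 * u a) * u a ^ (2 * g + 1) = 1 * u a ^ (2 * g + 1) := by
      rw [one_mul]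
      refine Eq.trans ?_ h1
      calc u c ^ 2 * u a * u a ^ (2 * g + 1) = u c ^ 2 * u a ^ (2 * g + 2) := by
            rw [mul_assoc, ← pow_succ']
        _ = (u c * u a ^ (g + 1)) ^ 2 := by
            rw [mul_pow, ← pow_mul, show 2 * g + 2 = (g + 1) * 2 by ring]
    exact mul_right_cancel₀ (pow_ne_zero _ hua0) h2
  have huc1 : u c ≤ 1 := by
    by_contra h
    rw [not_le] at h
    have h1 : 1 < u c ^ 2 * u a := by
      calc (1 : ℤᵐ⁰) = 1 * 1 := (one_mul 1).symm
        _ < u c ^ 2 * u a := mul_lt_mul'' (one_lt_pow' h two_ne_zero) ha zero_le' zero_le'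
    rw [huc] at h1
    exact lt_irrefl _ h1
  have hc0 : c ≠ 0 := by
    rintro rfl
    rw [_root_.map_zero, zero_pow two_ne_zero, zero_mul] at huc
    exact zero_ne_one huc
  -- the divisor
  obtain ⟨e, he⟩ : ∃ e, e = c ^ 2 * a := ⟨_, rfl⟩
  have hue : u e = 1 := by rw [he, _root_.map_mul, _root_.map_pow, huc]
  obtain ⟨B, hB⟩ : ∃ B, B = C c * X ^ (g + 1) := ⟨_, rfl⟩
  have hBa : B.eval a = -b := by rw [hB]; simp [hca]
  obtain ⟨G, hG⟩ : (X - C a) ∣ B ^ 2 - P := by
    rw [dvd_iff_isRoot, IsRoot.def, eval_sub, eval_pow, hBa, ← hab]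
    ring
  obtain ⟨A, hA⟩ : ∃ A, A = C ((c ^ 2)⁻¹) * G := ⟨_, rfl⟩
  obtain ⟨D, hD⟩ : ∃ D : E[X], D = C (c ^ 2) * X - C e := ⟨_, rfl⟩
  have hD' : D = C (c ^ 2) * (X - C a) := by
    rw [hD, he, C_mul]; ring
  have hAD : A * D = B ^ 2 - P := by
    rw [hG, hA, hD']
    have : C ((c ^ 2)⁻¹) * C (c ^ 2) = (1 : E[X]) := by
      rw [← C_mul, inv_mul_cancel₀ (pow_ne_zero _ hc0), C_1]
    linear_combination (G * (X - C a)) * this
  have h : B ^ 2 - A * D = P := by rw [hAD]; ring
  have hB2 : B ^ 2 = C (c ^ 2) * X ^ (2 * g + 2) := by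
    rw [hB, mul_pow, ← C_pow, ← pow_mul]
    ring_nf
  have hB2d : (B ^ 2).natDegree = 2 * g + 2 := by
    rw [hB2, natDegree_C_mul_X_pow _ _ (pow_ne_zero _ hc0)]
  have hBPd : (B ^ 2 - P).natDegree = 2 * g + 2 := by
    rw [natDegree_sub_eq_left_of_natDegree_lt (by rw [hPd, hB2d]; omega), hB2d]
  have hBPl : (B ^ 2 - P).leadingCoeff = c ^ 2 := by
    rw [leadingCoeff, hBPd, coeff_sub, hB2, coeff_C_mul, coeff_X_pow, if_pos rfl, mul_one,
      coeff_eq_zero_of_natDegree_lt (by omega : P.natDegree < 2 * g + 2), sub_zero]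
  have hDd : D.natDegree = 1 := by
    rw [hD', natDegree_C_mul (pow_ne_zero _ hc0), natDegree_X_sub_C]
  have hDl : D.leadingCoeff = c ^ 2 := by
    rw [hD', leadingCoeff_mul, leadingCoeff_C, leadingCoeff_X_sub_C, mul_one]
  have hBP0 : B ^ 2 - P ≠ 0 := by
    intro h0
    rw [h0, natDegree_zero] at hBPd
    omega
  have hA0 : A ≠ 0 := by
    rintro rfl
    rw [zero_mul] at hAD
    exact hBP0 hAD.symm
  have hD0 : D ≠ 0 := by
    rintro rfl
    rw [mul_zero] at hAD
    exact hBP0 hAD.symm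
  have hAd : A.natDegree = 2 * g + 1 := by
    have := congrArg natDegree hAD
    rw [natDegree_mul hA0 hD0, hDd, hBPd] at this
    omega
  have hAm : A.Monic := by
    have := congrArg leadingCoeff hAD
    rw [leadingCoeff_mul, hDl, hBPl] at this
    exact mul_right_cancel₀ (pow_ne_zero 2 hc0) (by rw [one_mul]; exact this)
  have hc2 : u (c ^ 2) ≤ 1 := by
    rw [_root_.map_pow]
    exact pow_le_one' huc1 2
  have hBPi : ∀ j, u ((B ^ 2 - P).coeff j) ≤ 1 := by
    intro j
    rw [coeff_sub]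
    refine (Valuation.map_sub _ _ _).trans (max_le ?_ (hPi j))
    rw [hB2, coeff_C_mul, coeff_X_pow]
    split_ifs
    · rw [mul_one]; exact hc2
    · rw [mul_zero, _root_.map_zero]; exact zero_le'
  have hAi : ∀ j, u (A.coeff j) ≤ 1 := val_quot u hc2 hue (by rw [← hD]; exact hAD) hBPi
  -- the class
  have hcls : Eqv (idl P (X - C a) (C b)) (idl P A B) := by
    have h1 := idl_swap h
    have h2 : idl' P D B = idl P D (C b) := by
      obtain ⟨t, ht⟩ : (X - C a) ∣ B + C b := by
        rw [dvd_iff_isRoot, IsRoot.def, eval_add, hBa, eval_C]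
        ring
      refine idl'_congr (t := C ((c ^ 2)⁻¹) * t) ?_
      rw [ht, hD']
      have : C ((c ^ 2)⁻¹) * C (c ^ 2) = (1 : E[X]) := by
        rw [← C_mul, inv_mul_cancel₀ (pow_ne_zero _ hc0), C_1]
      linear_combination (-((X - C a) * t)) * this
    have h3 : idl P D (C b) = idl P (X - C a) (C b) := by
      rw [hD']
      exact idl_scale (pow_ne_zero _ hc0)
    rw [h2, h3] at h1
    refine ⟨xx P A, -by' P (-B), ?_, ?_, h1⟩
    · rwa [Ne, xx_eq_zero]
    · intro h0
      have h4 := congrArg QuadraticAlgebra.im h0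
      have h5 : (-by' P (-B)).im = 1 := by
        simp [by']
      rw [h5] at h4
      exact one_ne_zero h4
  -- over the valuation ring
  obtain ⟨π, h1, h2, h3⟩ := jo_reg u ι hu hR
  have U := jo_un u ι hu h1 h2
  haveI := U.dvr
  have h2k := jo_two u ι hu hσ h1 h2
  have hPO : P = mp E (f.map (jo u ι hu)) := by
    rw [hP]
    unfold mp
    rw [Polynomial.map_map, Polynomial.map_map]
    rfl
  have hinj : Function.Injective (algebraMap u.valuationSubring E) := U.lc.inj
  obtain ⟨A', hA'⟩ : ∃ A' : u.valuationSubring[X], mp E A' = A := by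
    have h2 : A ∈ Polynomial.lifts (algebraMap u.valuationSubring E) := by
      rw [Polynomial.lifts_iff_coeff_lifts]
      intro n
      exact ⟨⟨A.coeff n, hAi n⟩, rfl⟩
    exact (Polynomial.mem_lifts A).1 h2
  obtain ⟨c', hc'⟩ : ∃ c' : u.valuationSubring, (algebraMap u.valuationSubring E) c' = c :=
    ⟨⟨c, huc1⟩, rfl⟩
  obtain ⟨e', he'⟩ : ∃ e' : u.valuationSubring, (algebraMap u.valuationSubring E) e' = e :=
    ⟨⟨e, hue.le⟩, rfl⟩
  have hB' : mp E (C c' * X ^ (g + 1)) = B := by
    rw [hB, ← hc']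
    simp [mp]
  have hDm : mp E (C (c' ^ 2) * X - C e') = D := by
    rw [hD, ← hc', ← he']
    simp [mp]
  have hO : (C c' * X ^ (g + 1)) ^ 2 - A' * (C (c' ^ 2) * X - C e') = f.map (jo u ι hu) := by
    apply U.lc.mp_inj
    rw [← hPO, ← h, ← hA', ← hDm, ← hB']
    simp [mp]
  have hA'm : A'.Monic := by
    apply Polynomial.monic_of_injective hinj
    have := hAm
    rw [← hA'] at this
    exact this
  have hA'd : A'.natDegree = 2 * g + 1 := by
    rw [← hAd, ← hA']
    exact (hA'm.natDegree_map _).symm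
  have hdd : (f.map (jo u ι hu)).natDegree = 2 * g + 1 := by rw [hm.natDegree_map, hd]
  subst hPO
  have hdvd := lvln U.lc h2k (hm.map _) hg hdd h3 hO hA'm hA'd hJ s (by
    rw [hA', hB']
    exact hE.trans hcls)
  obtain ⟨t, ht⟩ := hdvd
  have huc2 : u c ≤ u 2 ^ (s + 1) := by
    rw [← hc', ht, _root_.map_mul, _root_.map_mul, _root_.map_pow, map_ofNat, _root_.map_pow]
    calc u 2 ^ (s + 1) * u (algebraMap u.valuationSubring E t) ≤ u 2 ^ (s + 1) * 1 := by
          gcongr
          exact t.2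
      _ = _ := mul_one _
  calc (1 : ℤᵐ⁰) = u c ^ 2 * u a := huc.symm
    _ ≤ (u 2 ^ (s + 1)) ^ 2 * u a := by gcongr
    _ = u 2 ^ (2 * (s + 1)) * u a := by rw [← pow_mul, mul_comm (s + 1) 2]

end loc

end Pool.Agent.H458.BM
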