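import Pool.Agent.H458.BM.Lv1
import Pool.Agent.H458.BM.Fix

/-!
# Classes of points
-/

set_option autoImplicit false
set_option linter.all false

open Polynomial IsDedekindDomain NumberField WithZero
open scoped Classical nonZeroDivisors

namespace Pool.Agent.H458.BM

open Pool.Agent.H458.PD
open Pool.Agent.Y160.SE (CR xp yy)

section cls

variable {E : Type} [Field E]

/-- The ideal of a point is not principal. -/
theorem not_principal {P : E[X]} (hd : Odd P.natDegree) (hd3 : 1 < P.natDegree) {a b : E}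
    (hab : b ^ 2 = P.eval a) (hpr : ∃ e, Ideal.span {e} = idl P (X - C a) (C b)) : False := by
  haveI : IsDomain (QA E[X] P) := isDomain hd
  obtain ⟨c, hc⟩ : (X - C a) ∣ (C b) ^ 2 - P := by
    rw [dvd_iff_isRoot, IsRoot.def, eval_sub, eval_pow, eval_C, hab, sub_self]
  have h : (C b) ^ 2 - (X - C a) * c = P := by rw [← hc]; ring
  obtain ⟨e, he⟩ := hpr
  have he : idl P (X - C a) (C b) = Ideal.span {e} := he.symm
  have hA1 : ¬ IsUnit (X - C a) := (irreducible_X_sub_C a).not_isUnit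
  have hxA : xx P (X - C a) ∈ Ideal.span {e} := by
    rw [← he, mem_idl h]
    simp [xx]
  obtain ⟨e', he'⟩ := Ideal.mem_span_singleton.1 hxA
  have hn : nm e * nm e' = (X - C a) ^ 2 := by
    rw [← nm_mul, ← he']
    simp [nm, xx]
  obtain ⟨i, hi, hass⟩ := (dvd_prime_pow (prime_X_sub_C a) 2).1 (Dvd.intro _ hn)
  have hi2 : (nm e).natDegree = i := by
    rw [Polynomial.natDegree_eq_of_degree_eq (Polynomial.degree_eq_degree_of_associated hass),
      natDegree_pow, natDegree_X_sub_C, mul_one]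
  have h3 := nm_deg hd e
  rw [hi2] at h3
  interval_cases i
  · have h4 : IsUnit (nm e) := by
      rw [pow_zero] at hass
      exact associated_one_iff_isUnit.1 hass
    have h5 : (1 : QA E[X] P) ∈ idl P (X - C a) (C b) := by
      rw [he, Ideal.span_singleton_eq_top.2 (unit_of_nm h4)]
      trivial
    rw [mem_idl h] at h5
    apply hA1
    apply isUnit_of_dvd_one
    have h6 : (1 : QA E[X] P).re + (1 : QA E[X] P).im * C b = 1 := by
      rw [QuadraticAlgebra.re_one, QuadraticAlgebra.im_one]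
      ring
    rwa [h6] at h5
  · rcases h3 with h3 | h3
    · exact (by decide : ¬ Even 1) h3
    · omega
  · have h4 : IsUnit (nm e') := by
      obtain ⟨u, hu⟩ := hass
      have h6 : nm e ≠ 0 := by
        intro h0
        rw [h0, zero_mul] at hu
        exact pow_ne_zero _ (X_sub_C_ne_zero a) hu.symm
      have h5 : nm e' = u := by
        apply mul_left_cancel₀ h6
        rw [hn, hu]
      rw [h5]
      exact u.isUnit
    have h5 : by' P (C b) ∈ idl P (X - C a) (C b) := by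
      rw [mem_idl h]
      simp [by']
    rw [he] at h5
    obtain ⟨z, hz⟩ := Ideal.mem_span_singleton.1 h5
    obtain ⟨u, hu⟩ := unit_of_nm h4
    have h6 : xx P (X - C a) ∣ by' P (C b) := by
      refine ⟨((u⁻¹ : (QA E[X] P)ˣ) : QA E[X] P) * z, ?_⟩
      rw [he', ← hu, hz]
      calc e * z = e * ((u : QA E[X] P) * ((u⁻¹ : (QA E[X] P)ˣ) : QA E[X] P)) * z := by
            rw [Units.mul_inv, mul_one]
        _ = _ := by ring
    have h7 := (xx_dvd'.1 h6).2
    apply hA1
    apply isUnit_of_dvd_one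
    have h8 : (by' P (C b)).im = -1 := rfl
    rw [h8] at h7
    exact (dvd_neg.1 h7)

variable (P : E[X])

/-- The ideal `(A(x), B(x) - y)`. -/
noncomputable def dId (A B : E[X]) : Ideal (CR 2 P) := Ideal.span {xp 2 P A, xp 2 P B - yy 2 P}

theorem toQA_xp (A : E[X]) : toQA P (xp 2 P A) = xx P A := by
  have := toQA_eq P A 0
  have h0 : xp 2 P (0 : E[X]) = 0 := _root_.map_zero (AdjoinRoot.of _)
  rw [h0, zero_mul, add_zero] at this
  exact this

theorem toQA_yy (B : E[X]) : toQA P (xp 2 P B - yy 2 P) = by' P B := by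
  have := toQA_eq P B (-1)
  have h0 : xp 2 P (-1 : E[X]) = -1 := by
    have h1 : xp 2 P (-1 : E[X]) = -(xp 2 P 1) := _root_.map_neg (AdjoinRoot.of _) 1
    have h2 : xp 2 P (1 : E[X]) = 1 := _root_.map_one (AdjoinRoot.of _)
    rw [h1, h2]
  have e : xp 2 P B + xp 2 P (-1) * yy 2 P = xp 2 P B - yy 2 P := by
    rw [h0]; ring
  rw [e] at this
  exact this

theorem dId_map (A B : E[X]) : (dId P A B).map (isoQA P : CR 2 P →+* QA E[X] P) = idl P A B := by
  unfold dId idl
  rw [Ideal.map_span, Set.image_pair]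
  have e : ∀ z, (isoQA P : CR 2 P →+* QA E[X] P) z = toQA P z := fun z => rfl
  rw [e, e, toQA_xp, toQA_yy]

variable {P}

/-- Divisibility of classes in terms of ideals. -/
theorem cls_div (h1 : IsDedekindDomain (CR 2 P)) {I : Ideal (CR 2 P)} (hI : I ≠ ⊥)
    {S : CommRing.Pic (CR 2 P)} {n : ℕ}
    (hS : S ^ n = ClassGroup.equivPic (CR 2 P)
      (ClassGroup.mk0 ⟨I, mem_nonZeroDivisors_of_ne_zero hI⟩)) :
    ∃ J : Ideal (QA E[X] P), J ≠ ⊥ ∧
      Pool.Agent.H458.PD.Eqv (J ^ n) (I.map (isoQA P : CR 2 P →+* QA E[X] P)) := by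
  obtain ⟨φ, hφ⟩ : ∃ φ : CR 2 P ≃+* QA E[X] P, φ = isoQA P := ⟨_, rfl⟩
  have hne : ∀ {J : Ideal (CR 2 P)}, J ≠ ⊥ → J.map (φ : CR 2 P →+* QA E[X] P) ≠ ⊥ := by
    intro J hJ h
    apply hJ
    exact (Ideal.map_eq_bot_iff_of_injective (f := (φ : CR 2 P →+* QA E[X] P)) φ.injective).1 h
  obtain ⟨d, hd⟩ : ∃ d : ClassGroup (CR 2 P), d = (ClassGroup.equivPic (CR 2 P)).symm S := ⟨_, rfl⟩
  have hd' : d ^ n = ClassGroup.mk0 ⟨I, mem_nonZeroDivisors_of_ne_zero hI⟩ := by
    rw [hd, ← _root_.map_pow, hS, MulEquiv.symm_apply_apply]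
  obtain ⟨⟨J, hJ⟩, hJd⟩ := ClassGroup.mk0_surjective d
  rw [← hJd, ← _root_.map_pow, ClassGroup.mk0_eq_mk0_iff] at hd'
  obtain ⟨a, b, ha, hb, h⟩ := hd'
  refine ⟨J.map (φ : CR 2 P →+* QA E[X] P), hne (nonZeroDivisors.ne_zero hJ), φ a, φ b, ?_, ?_, ?_⟩
  · rw [Ne, EmbeddingLike.map_eq_zero_iff]; exact ha
  · rw [Ne, EmbeddingLike.map_eq_zero_iff]; exact hb
  · have h4 := congrArg (Ideal.map (φ : CR 2 P →+* QA E[X] P)) h
    rw [Ideal.map_mul, Ideal.map_mul, Ideal.map_span, Ideal.map_span, Set.image_singleton,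
      Set.image_singleton] at h4
    rw [← Ideal.map_pow, ← hφ]
    exact h4

end cls

section loc

variable {F : Type} [Field F] [NumberField F]

variable {E : Type} [Field E] {v : HeightOneSpectrum (𝓞 F)} (u : Valuation E ℤᵐ⁰)
  (ι : F →+* E) (hu : ∀ a : 𝓞 F, u (ι (a : F)) = v.intValuation a)

/-- the integrality of the second coordinate -/
theorem int_snd {f : (𝓞 F)[X]} {P : E[X]} (hu : ∀ a : 𝓞 F, u (ι (a : F)) = v.intValuation a)
    (hP : P = (f.map (algebraMap (𝓞 F) F)).map ι) {a b : E} (hab : b ^ 2 = P.eval a)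
    (ha : u a ≤ 1) : u b ≤ 1 := by
  have h1 : u (P.eval a) ≤ 1 := by
    rw [hP, Polynomial.map_map, eval_map, eval₂_eq_sum_range]
    apply Valuation.map_sum_le
    intro i _
    rw [_root_.map_mul, _root_.map_pow]
    have h2 : u (((ι.comp (algebraMap (𝓞 F) F)) (f.coeff i))) ≤ 1 := by
      have := hu (f.coeff i)
      rw [RingHom.comp_apply]
      refine this.le.trans (v.intValuation_le_one _)
    calc u (((ι.comp (algebraMap (𝓞 F) F)) (f.coeff i))) * u a ^ i ≤ 1 * 1 ^ i := by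
          gcongr
      _ = 1 := by rw [one_pow, one_mul]
  rw [← hab, _root_.map_pow] at h1
  by_contra h
  rw [not_le] at h
  exact absurd h1 (not_le.2 (one_lt_pow' h two_ne_zero))

include u hu in
/-- An infinitely 2-divisible class is not the class of a point. -/
theorem pt_inf (hσ : (2 : 𝓞 F) ∈ v.asIdeal) {f : (𝓞 F)[X]} (hR : RegAt v f) (hm : f.Monic) {g : ℕ}
    (hg : 1 ≤ g) (hd : f.natDegree = 2 * g + 1) {P : E[X]}
    (hP : P = (f.map (algebraMap (𝓞 F) F)).map ι) (h1 : IsDedekindDomain (CR 2 P)) {a b : E}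
    (hab : b ^ 2 = P.eval a) (hI : dId P (X - C a) (C b) ≠ ⊥)
    (hS : ∀ n : ℕ, ∃ S : CommRing.Pic (CR 2 P), S ^ 2 ^ n = ClassGroup.equivPic (CR 2 P)
      (ClassGroup.mk0 ⟨dId P (X - C a) (C b), mem_nonZeroDivisors_of_ne_zero hI⟩)) : False := by
  have hPd : P.natDegree = 2 * g + 1 := by
    rw [hP, (hm.map _).natDegree_map, hm.natDegree_map, hd]
  have hI' : idl P (X - C a) (C b) ≠ ⊥ := by
    rw [← dId_map]
    intro h
    apply hI
    exact (Ideal.map_eq_bot_iff_of_injective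
      (f := (isoQA P : CR 2 P →+* QA E[X] P)) (isoQA P).injective).1 h
  apply not_principal (P := P) (by rw [hPd]; exact odd_two_mul_add_one g) (by rw [hPd]; omega) hab
  refine inf_div u ι hu hσ hR hm hd hP hI' fun n => ?_
  obtain ⟨S, hS⟩ := hS n
  have := cls_div h1 hI hS
  rwa [dId_map] at this

include u hu in
/-- The class of an integral point is not divisible by two. -/
theorem pt_one (hσ : (2 : 𝓞 F) ∈ v.asIdeal) {f : (𝓞 F)[X]} (hR : RegAt v f) (hm : f.Monic) {g : ℕ}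
    (hg : 1 ≤ g) (hd : f.natDegree = 2 * g + 1) {P : E[X]}
    (hP : P = (f.map (algebraMap (𝓞 F) F)).map ι) (h1 : IsDedekindDomain (CR 2 P)) {a b : E}
    (hab : b ^ 2 = P.eval a) (ha : u a ≤ 1) (hI : dId P (X - C a) (C b) ≠ ⊥)
    (hS : ∃ S : CommRing.Pic (CR 2 P), S ^ 2 = ClassGroup.equivPic (CR 2 P)
      (ClassGroup.mk0 ⟨dId P (X - C a) (C b), mem_nonZeroDivisors_of_ne_zero hI⟩)) : False := by
  obtain ⟨S, hS⟩ := hS
  obtain ⟨J, hJ, hJE⟩ := cls_div h1 hI hS
  rw [dId_map] at hJE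
  obtain ⟨c, hc⟩ : (X - C a) ∣ (C b) ^ 2 - P := by
    rw [dvd_iff_isRoot, IsRoot.def, eval_sub, eval_pow, eval_C, hab, sub_self]
  have h : (C b) ^ 2 - (X - C a) * c = P := by rw [← hc]; ring
  have hb := int_snd u ι hu hP hab ha
  refine one_div u ι hu hσ hR hm hd hP h (monic_X_sub_C a) (by rw [natDegree_X_sub_C])
    (by rw [natDegree_X_sub_C]; omega) (fun j => ?_) (fun j => ?_) hJ hJE
  · rw [coeff_sub, coeff_X, coeff_C]
    refine (Valuation.map_sub _ _ _).trans (max_le ?_ ?_)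
    · split_ifs
      · rw [_root_.map_one]
      · rw [_root_.map_zero]; exact zero_le'
    · split_ifs
      · exact ha
      · rw [_root_.map_zero]; exact zero_le'
  · rw [coeff_C]
    split_ifs
    · exact hb
    · rw [_root_.map_zero]; exact zero_le'

end loc

end Pool.Agent.H458.BM
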