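import Pool.Agent.H458.BM.Def
import Pool.Agent.H458.BM.Pnt

/-!
# The adelic points which lift to a `2 ^ n`-covering
-/

set_option autoImplicit false
set_option linter.all false

open Polynomial IsDedekindDomain NumberField WithZero
open scoped Classical nonZeroDivisors

namespace Pool.Agent.H458.BM

open Pool.Agent.H458.PD
open Pool.Agent.Y160.SE (Jac jm)
open Pool.Agent.TH115.GD (incl rs ak)
open Pool.Agent.N106.JB (ad mu ad_mapJ ACoc ACob ATriv)
open Pool.Agent.N874.Jac (J mapJ Gal Cochain Cocycle Coboundary CoordRing TrivialAtPrimes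
  TrivialAtReals ShaTwoTrivialReal power)

section loc

variable {K : Type} [Field K] {P : K[X]}

theorem exists_class (h2 : (2 : K) ≠ 0) (hm : P.Monic) (hs : P.Separable) (ho : Odd P.natDegree)
    {E : Type} [Field E] [Algebra K E] (z : Point P E) : ∃ q : J P E, HasClass z q := by
  cases z with
  | none => exact ⟨1, rfl⟩
  | some p =>
    have hg := Pool.Agent.N106.JB.good2 h2 hm hs ho
    have hD : IsDedekindDomain (CoordRing P E) := Pool.Agent.Y160.SE.hyps.ring 2 E _ _ (hg.up E)
    have h0 : pointIdeal P E p.1.1 p.1.2 ≠ ⊥ := by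
      intro h
      have h3 : (AdjoinRoot.of _ (X - C p.1.1) : AdjoinRoot (X ^ 2 -
          C (P.map (algebraMap K E)) : E[X][X])) ∈ pointIdeal P E p.1.1 p.1.2 :=
        Ideal.subset_span (Set.mem_insert _ _)
      rw [h] at h3
      have h4 : Pool.Agent.Y160.SE.xp 2 (P.map (algebraMap K E)) (X - C p.1.1) = 0 :=
        (Ideal.mem_bot).1 h3
      have h5 := congrArg (toQA (P.map (algebraMap K E))) h4
      rw [toQA_xp, _root_.map_zero, xx_eq_zero] at h5
      exact X_sub_C_ne_zero _ h5
    exact ⟨_, hD, ⟨_, mem_nonZeroDivisors_of_ne_zero h0⟩, rfl, rfl⟩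

theorem class_unique {E : Type} [Field E] [Algebra K E] {z : Point P E} {q q' : J P E}
    (h : HasClass z q) (h' : HasClass z q') : q = q' := by
  cases z with
  | none => exact Eq.trans h (Eq.symm h')
  | some p =>
    obtain ⟨h1, I, h2, rfl⟩ := h
    obtain ⟨h3, I', h4, rfl⟩ := h'
    have h5 : I = I' := Subtype.ext (h2.trans h4.symm)
    rw [h5]

theorem nz_of {E : Type} [Field E] [Algebra K E] [IsDedekindDomain (CoordRing P E)]
    {I : Ideal (CoordRing P E)} {I' : (Ideal (CoordRing P E))⁰} {c : J P E}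
    (h : (I' : Ideal (CoordRing P E)) = I) (hc : c = toPic (classOf I')) :
    ∃ h0 : I ≠ ⊥, c = ClassGroup.equivPic (CoordRing P E)
      (ClassGroup.mk0 ⟨I, mem_nonZeroDivisors_of_ne_zero h0⟩) := by
  subst h
  exact ⟨nonZeroDivisors.ne_zero I'.2, hc⟩

theorem class_mk {E : Type} [Field E] [Algebra K E] (hD : IsDedekindDomain (CoordRing P E))
    {I : Ideal (CoordRing P E)} {c : J P E} (h0 : I ≠ ⊥) (hc : c = ClassGroup.equivPic (CoordRing P E)
      (ClassGroup.mk0 ⟨I, mem_nonZeroDivisors_of_ne_zero h0⟩)) : IsClassOf I c :=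
  ⟨hD, ⟨_, mem_nonZeroDivisors_of_ne_zero h0⟩, rfl, hc⟩

/-- a power of a class is the class of a point over `E` iff ... -/
theorem lifts_power (h2 : (2 : K) ≠ 0) (hm : P.Monic) (hs : P.Separable) (ho : Odd P.natDegree)
    (hJ : Subsingleton (J P K)) {c : Cochain P} (hc : Coboundary c) (n : ℕ)
    (hn : ∀ σ, c σ ^ 2 ^ n = 1) {E : Type} [Field E] [Algebra K E] {z : Point P E}
    (h : LiftsTo E (2 ^ n) c z) : ClassIsPower (2 ^ n) z := by
  obtain ⟨q, h1, ι, R, h3, h4⟩ := h
  obtain ⟨S, hS⟩ := surv_add h2 hm hs ho (fun x => hJ.elim (mu x) (mu 0))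
    (c := fun σ => ad (c σ : Pool.Agent.Y713.Jac.J 2 P (SeparableClosure K)))
    (Pool.Agent.N106.JB.acob_iff.1 hc) n (fun σ => hn σ) E ι (ad (R : Pool.Agent.Y713.Jac.J 2 P _))
    (fun τ σ hx => by
      have h5 := h4 τ σ hx
      have h6 : jm 2 P ι (ad (c σ : Pool.Agent.Y713.Jac.J 2 P (SeparableClosure K))) =
          ad (mapJ P ι (c σ) : Pool.Agent.Y713.Jac.J 2 P (SeparableClosure E)) :=
        (ad_mapJ ι (c σ : Pool.Agent.Y713.Jac.J 2 P (SeparableClosure K))).symm
      have h7 : jm 2 P (rs K τ) (ad (R : Pool.Agent.Y713.Jac.J 2 P (SeparableClosure E))) =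
          ad (mapJ P (τ.toAlgHom.restrictScalars K) R :
            Pool.Agent.Y713.Jac.J 2 P (SeparableClosure E)) :=
        (ad_mapJ (rs K τ) (R : Pool.Agent.Y713.Jac.J 2 P (SeparableClosure E))).symm
      rw [h6, h7]
      exact congrArg (fun x : Pool.Agent.Y713.Jac.J 2 P (SeparableClosure E) => ad x) h5)
    (ad (q : Pool.Agent.Y713.Jac.J 2 P E)) (by
      have h7 : jm 2 P (incl K E (SeparableClosure E)) (ad (q : Pool.Agent.Y713.Jac.J 2 P E)) =
          ad (mapJ P (IsScalarTower.toAlgHom K E (SeparableClosure E)) q :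
            Pool.Agent.Y713.Jac.J 2 P (SeparableClosure E)) :=
        (ad_mapJ (incl K E (SeparableClosure E)) (q : Pool.Agent.Y713.Jac.J 2 P E)).symm
      rw [h7]
      exact congrArg (fun x : Pool.Agent.Y713.Jac.J 2 P (SeparableClosure E) => ad x) h3)
  exact ⟨q, mu S, h1, congrArg (fun x : Jac 2 P E => mu x) hS⟩

theorem mapJ_fix {E : Type} [Field E] [Algebra K E] (S : J P E)
    (τ : SeparableClosure E ≃ₐ[E] SeparableClosure E) :
    mapJ P (τ.toAlgHom.restrictScalars K)
      (mapJ P (IsScalarTower.toAlgHom K E (SeparableClosure E)) S) =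
      mapJ P (IsScalarTower.toAlgHom K E (SeparableClosure E)) S := by
  refine Pool.Agent.N106.JB.ad_inj ?_
  refine (ad_mapJ (rs K τ) _).trans ?_
  have h1 := ad_mapJ (incl K E (SeparableClosure E)) (S : Pool.Agent.Y713.Jac.J 2 P E)
  refine (congrArg (jm 2 P (rs K τ)) h1).trans (Eq.trans ?_ h1.symm)
  rw [Pool.Agent.Y160.SE.jm_jm]
  congr 1
  congr 1
  exact AlgHom.ext fun y => τ.commutes y

/-- The trivial cocycle: a point whose class is an `n`-th power lifts to the trivial covering. -/
theorem power_lifts {E : Type} [Field E] [Algebra K E] {n : ℕ} {z : Point P E}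
    (h : ClassIsPower n z) : LiftsTo E n (1 : Cochain P) z := by
  obtain ⟨q, S, h1, h2⟩ := h
  let ι : SeparableClosure K →ₐ[K] SeparableClosure E := IsSepClosed.lift
  refine ⟨q, h1, ι, mapJ P (IsScalarTower.toAlgHom K E (SeparableClosure E)) S, ?_, ?_⟩
  · show mapJ P (IsScalarTower.toAlgHom K E (SeparableClosure E)) S ^ n = _
    rw [← _root_.map_pow, h2]
  · intro τ σ hx
    rw [mapJ_fix, div_self']
    exact _root_.map_one _

end loc

section glob

variable {K : Type} [Field K] {P : K[X]} {R : Type} [CommRing R] [IsDedekindDomain R] [Algebra R K]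
  [IsFractionRing R K]

/-- **The adelic points which lift to a `2 ^ n`-covering**, if `J(K) = 0` and `Ш[2 ^ ∞] = 0`. -/
theorem survives_iff (h2 : (2 : K) ≠ 0) (hm : P.Monic) (hs : P.Separable) (ho : Odd P.natDegree)
    (hJ : Subsingleton (J P K)) (hS : ShaTwoTrivialReal P R) (n : ℕ) (z : AdelicPoint P R) :
    Survives (2 ^ n) z ↔ ClassesArePowers (2 ^ n) z := by
  constructor
  · rintro ⟨c, hc, hn, hf, hr⟩
    have hcob : Coboundary c := by
      refine hS c n hc (fun w => ?_) (fun ρ => ?_) ?_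
      · obtain ⟨q, h1, ι, R', h3, h4⟩ := hf w
        exact ⟨ι, R', h4⟩
      · letI := ρ.toAlgebra
        obtain ⟨q, h1, ι, R', h3, h4⟩ := hr ρ
        exact ⟨ι, R', h4⟩
      · refine ⟨1, fun σ => ?_⟩
        rw [_root_.map_one, div_one]
        exact hn σ
    refine ⟨fun w => lifts_power h2 hm hs ho hJ hcob n hn (hf w), fun ρ => ?_⟩
    letI := ρ.toAlgebra
    exact lifts_power h2 hm hs ho hJ hcob n hn (hr ρ)
  · rintro ⟨hf, hr⟩
    refine ⟨1, ⟨?_, fun σ τ => ?_⟩, fun σ => one_pow _, fun w => power_lifts (hf w), fun ρ => ?_⟩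
    · exact IsLocallyConstant.const 1
    · show (1 : J P (SeparableClosure K)) = 1 * mapJ P σ.toAlgHom 1
      rw [_root_.map_one, one_mul]
    · letI := ρ.toAlgebra
      exact power_lifts (hr ρ)

end glob

section two

variable {F : Type} [Field F] [NumberField F] {M : Type} [Field M] [NumberField M] [Algebra F M]

/-- The valuation of the completion of `M` on `F` if `M / F` is unramified at `w`. -/
theorem comp_val {v : HeightOneSpectrum (𝓞 F)} {w : HeightOneSpectrum (𝓞 M)}
    (h : ∀ x : F, w.valuation M (algebraMap F M x) = v.valuation F x) (a : 𝓞 F) :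
    (Valued.v : Valuation (w.adicCompletion M) ℤᵐ⁰)
      (((algebraMap M (w.adicCompletion M)).comp (algebraMap F M)) (a : F)) = v.intValuation a := by
  rw [RingHom.comp_apply]
  have h1 : algebraMap M (w.adicCompletion M) (algebraMap F M (a : F)) =
      ((algebraMap F M (a : F) : M) : w.adicCompletion M) := rfl
  rw [h1]
  exact ((w.valuedAdicCompletion_eq_valuation' _).trans (h _)).trans (v.valuation_of_algebraMap a)

variable {f : (𝓞 F)[X]} {g : ℕ} {P : M[X]}

/-- A point over the completion at a prime over two whose class is infinitely divisible by two is the point at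
infinity. -/
theorem point_inf (hm : f.Monic) (hg : 1 ≤ g) (hd : f.natDegree = 2 * g + 1)
    (hP : P = (f.map (algebraMap (𝓞 F) F)).map (algebraMap F M))
    {v : HeightOneSpectrum (𝓞 F)} (hv : (2 : 𝓞 F) ∈ v.asIdeal) (hR : RegAt v f)
    {w : HeightOneSpectrum (𝓞 M)}
    (h : ∀ x : F, w.valuation M (algebraMap F M x) = v.valuation F x)
    (z : Point P (w.adicCompletion M)) (hz : ∀ n : ℕ, ClassIsPower (2 ^ n) z) : z = none := by
  cases z with
  | none => rfl
  | some p =>
    exfalso
    obtain ⟨q, -, ⟨h1, I, h20, h3⟩, -⟩ := hz 0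
    obtain ⟨h2, h3⟩ := nz_of h20 h3
    refine pt_inf (E := w.adicCompletion M) Valued.v
      ((algebraMap M (w.adicCompletion M)).comp (algebraMap F M)) (comp_val h) hv hR hm hg hd
      (P := P.map (algebraMap M (w.adicCompletion M))) (by rw [hP, Polynomial.map_map]) h1
      (a := p.1.1) (b := p.1.2) p.2 h2 fun n => ?_
    obtain ⟨q', S, h4, h5⟩ := hz n
    refine ⟨S, ?_⟩
    have h6 : q' = q := class_unique h4 (class_mk h1 h2 h3)
    exact h5.trans (h6.trans h3)

/-- The class of an integral point is not a square. -/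
theorem point_one (hm : f.Monic) (hg : 1 ≤ g) (hd : f.natDegree = 2 * g + 1)
    (hP : P = (f.map (algebraMap (𝓞 F) F)).map (algebraMap F M))
    {v : HeightOneSpectrum (𝓞 F)} (hv : (2 : 𝓞 F) ∈ v.asIdeal) (hR : RegAt v f)
    {w : HeightOneSpectrum (𝓞 M)}
    (h : ∀ x : F, w.valuation M (algebraMap F M x) = v.valuation F x)
    (p : {p : w.adicCompletion M × w.adicCompletion M //
      p.2 ^ 2 = (P.map (algebraMap M (w.adicCompletion M))).eval p.1})
    (hz : ClassIsPower 2 (some p : Point P (w.adicCompletion M))) :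
    1 < (Valued.v : Valuation (w.adicCompletion M) ℤᵐ⁰) p.1.1 := by
  by_contra hle
  rw [not_lt] at hle
  obtain ⟨q, S, ⟨h1, I, h20, h3⟩, h4⟩ := hz
  obtain ⟨h2, h3⟩ := nz_of h20 h3
  exact pt_one (E := w.adicCompletion M) Valued.v
    ((algebraMap M (w.adicCompletion M)).comp (algebraMap F M)) (comp_val h) hv hR hm hg hd
    (P := P.map (algebraMap M (w.adicCompletion M))) (by rw [hP, Polynomial.map_map]) h1
    (a := p.1.1) (b := p.1.2) p.2 hle h2 ⟨S, h4.trans h3⟩

end two

end Pool.Agent.H458.BM
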