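import Pool.Agent.H458.PD.Exf

/-!
# A residue class modulo four which is regular at all primes over two
-/

set_option autoImplicit false
set_option linter.all false

open Polynomial IsDedekindDomain NumberField

namespace Pool.Agent.H458.BM

open Pool.Agent.N352.PF (rv)
open Pool.Agent.H458.PD

/-- The residue class modulo four, regular at all the primes over two. -/
theorem ex5 (F : Type) [Field F] [NumberField F] (g : ℕ) (hg : 1 ≤ g) :
    ∃ f₂ : (𝓞 F)[X], f₂.Monic ∧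
      f₂.natDegree = 2 * g + 1 ∧ f₂.coeff (2 * g) = 0 ∧
      (∀ 𝔭 : Ideal (𝓞 F), 𝔭.IsPrime → ((4 : ℕ) : 𝓞 F) ∈ 𝔭 →
        Irreducible (Pool.Agent.N783.PF.rd 𝔭 f₂)) ∧
      ∀ v : HeightOneSpectrum (𝓞 F), (2 : 𝓞 F) ∈ v.asIdeal → RegAt v f₂ := by
  classical
  obtain ⟨W, f₁, hm, hd, ht, hW, h2W, hirr, hsep, hp⟩ := Pool.Agent.N823.PF.gf F g 1 hg
  -- the polynomials at the primes over two
  have hloc : ∀ v : HeightOneSpectrum (𝓞 F), (2 : 𝓞 F) ∈ v.asIdeal →
      ∃ f : (𝓞 F)[X], f.Monic ∧ f.natDegree = 2 * g + 1 ∧ f.coeff (2 * g) = 0 ∧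
        rv v f = rv v f₁ ∧ RegAt v f := by
    intro v hv
    obtain ⟨ϖ, h1, h2⟩ := Ideal.exists_mem_pow_notMem_pow_succ v.asIdeal v.ne_bot
      v.isPrime.ne_top 1
    rw [pow_one] at h1
    have : Finite (𝓞 F ⧸ v.asIdeal) := Ideal.finiteQuotientOfFreeOfNeBot v.asIdeal v.ne_bot
    obtain ⟨r, hr1, hr2⟩ := adj v h1 h2 hv hm hd
    have hr3 : (C ϖ * r).degree < (g : WithBot ℕ) :=
      lt_of_le_of_lt (by
        refine (degree_mul_le _ _).trans ?_
        calc (C ϖ).degree + r.degree ≤ 0 + r.degree := by gcongr; exact degree_C_le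
          _ = r.degree := zero_add _) hr1
    have hr4 : (C ϖ * r).degree < f₁.degree := by
      rw [degree_eq_natDegree hm.ne_zero, hd]
      exact hr3.trans (by exact_mod_cast (by omega : g < 2 * g + 1))
    refine ⟨f₁ + C ϖ * r, hm.add_of_left hr4, ?_, ?_, ?_, hr2.at h1 h2⟩
    · rw [natDegree_add_eq_left_of_degree_lt hr4, hd]
    · rw [coeff_add, ht, zero_add]
      exact coeff_eq_zero_of_degree_lt (hr3.trans (by exact_mod_cast (by omega : g < 2 * g)))
    · rw [rv, rv, Polynomial.map_add, Polynomial.map_mul, map_C,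
        Ideal.Quotient.eq_zero_iff_mem.2 h1, C_0, zero_mul, add_zero]
  have h20 : Ideal.span {(2 : 𝓞 F)} ≠ 0 := by
    rw [Ne, Ideal.zero_eq_bot, Ideal.span_singleton_eq_bot]
    exact two_ne_zero
  have hfinS := Ideal.finite_factors h20
  obtain ⟨T, hT⟩ : ∃ T : Finset (HeightOneSpectrum (𝓞 F)), T = hfinS.toFinset := ⟨_, rfl⟩
  have hmem : ∀ w : HeightOneSpectrum (𝓞 F), (2 : 𝓞 F) ∈ w.asIdeal ↔ w ∈ T := by
    intro w
    rw [hT, Set.Finite.mem_toFinset, Set.mem_ofPred_eq, Ideal.dvd_span_singleton]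
  choose! fv fm fd ft fr fR using hloc
  have hcrt : ∀ j : ℕ, ∃ c : 𝓞 F, ∀ v : HeightOneSpectrum (𝓞 F), (2 : 𝓞 F) ∈ v.asIdeal →
      c - (fv v).coeff j ∈ v.asIdeal ^ 2 := by
    intro j
    obtain ⟨c, hc⟩ := IsDedekindDomain.exists_forall_sub_mem_ideal (s := T)
      (fun w => w.asIdeal) (fun _ => 2) (fun w _ => w.prime)
      (fun w _ w' _ hww h => hww (HeightOneSpectrum.ext h))
      (fun w => (fv w.1).coeff j)
    exact ⟨c, fun v hv => hc v ((hmem v).1 hv)⟩
  choose c hc using hcrt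
  obtain ⟨s, hs⟩ : ∃ s : (𝓞 F)[X], s = ∑ j ∈ Finset.range (2 * g), C (c j) * X ^ j := ⟨_, rfl⟩
  have hsd : s.degree < ((2 * g : ℕ) : WithBot ℕ) := by
    rw [hs]
    refine (degree_sum_le _ _).trans_lt ?_
    refine (Finset.sup_lt_iff ?_).2 fun j hj => ?_
    · exact WithBot.bot_lt_coe _
    · exact (degree_C_mul_X_pow_le _ _).trans_lt (by exact_mod_cast Finset.mem_range.1 hj)
  have hsX : s.degree < (X ^ (2 * g + 1) : (𝓞 F)[X]).degree := by
    rw [degree_X_pow]
    exact hsd.trans (by exact_mod_cast (by omega : 2 * g < 2 * g + 1))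
  have hcoef : ∀ (v : HeightOneSpectrum (𝓞 F)), (2 : 𝓞 F) ∈ v.asIdeal → ∀ j,
      (X ^ (2 * g + 1) + s).coeff j - (fv v).coeff j ∈ v.asIdeal ^ 2 := by
    intro v hv j
    have h1 : s.coeff j = if j < 2 * g then c j else 0 := by
      rw [hs, finsetSum_coeff]
      simp only [coeff_C_mul, coeff_X_pow, mul_ite, mul_one, mul_zero]
      rw [Finset.sum_ite_eq (Finset.range (2 * g)) j c]
      simp only [Finset.mem_range]
    rw [coeff_add, coeff_X_pow, h1]
    rcases lt_trichotomy j (2 * g) with h | h | h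
    · rw [if_neg (by omega), if_pos h, zero_add]
      exact hc j v hv
    · rw [if_neg (by omega), if_neg (by omega), zero_add, h, ft v hv, sub_zero]
      exact Ideal.zero_mem _
    · by_cases h' : j = 2 * g + 1
      · rw [if_pos h', if_neg (by omega), add_zero, h']
        have h3 := (fm v hv).coeff_natDegree
        rw [fd v hv] at h3
        rw [h3, sub_self]
        exact Ideal.zero_mem _
      · rw [if_neg h', if_neg (by omega), zero_add,
          coeff_eq_zero_of_natDegree_lt (by rw [fd v hv]; omega), sub_zero]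
        exact Ideal.zero_mem _
  refine ⟨X ^ (2 * g + 1) + s, (monic_X_pow _).add_of_left hsX, ?_, ?_, ?_, ?_⟩
  · rw [natDegree_add_eq_left_of_degree_lt hsX, natDegree_X_pow]
  · rw [coeff_add, coeff_X_pow, if_neg (by omega), zero_add]
    exact coeff_eq_zero_of_degree_lt hsd
  · intro 𝔭 hp h5
    have h6 : (2 : 𝓞 F) ∈ 𝔭 := by
      have h7 : ((4 : ℕ) : 𝓞 F) = 2 * 2 := by norm_num
      rw [h7] at h5
      exact (hp.mem_or_mem h5).elim id id
    have hb : 𝔭 ≠ ⊥ := by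
      rintro rfl
      exact two_ne_zero ((Ideal.mem_bot).1 h6)
    have h8 := hirr ⟨𝔭, hp, hb⟩ h6
    have h9 := fr ⟨𝔭, hp, hb⟩ h6
    have h10 : Pool.Agent.N783.PF.rd 𝔭 (X ^ (2 * g + 1) + s) = rv ⟨𝔭, hp, hb⟩ (fv ⟨𝔭, hp, hb⟩) := by
      ext j
      unfold Pool.Agent.N783.PF.rd rv
      rw [coeff_map, coeff_map]
      refine Ideal.Quotient.eq.2 ?_
      exact Ideal.pow_le_self two_ne_zero (hcoef ⟨𝔭, hp, hb⟩ h6 j)
    rw [h10, h9]
    exact h8
  · intro v hv
    exact (fR v hv).congr (hcoef v hv)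

end Pool.Agent.H458.BM
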